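import Pool.Agent.R936.Arb.Dick
import Pool.Agent.R936.GHC.Cone

/-!
# Finite generation of the divisible words with an arbitrary factor
-/

set_option linter.unusedVariables false
set_option linter.unusedSectionVars false

namespace Pool.Agent.R936.GTF

open Pool.Agent.R936.Arb
open Pool.Agent.R936.GHC (vs vs_cons vs_add vs_zero)

/-- **The lemma of Dickson for words with an arbitrary factor.** -/
theorem exists_core {G S : Type*} [Fintype G] [Fintype S] (f : S → G → ℤ) (D : ℕ) :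
    ∃ 𝓖 : List (G → ℕ), ∀ (n : ℕ) (τ : S → ℕ) (m : G → ℕ) (c : ℕ), (∀ s, τ s ≤ D * n) →
      (∀ s, (D * c : ℤ) ≤ τ s + ∑ g, f s g * m g) →
      ∃ (Ms : List (G → ℕ)) (c1 c2 : ℕ), Ms.length ≤ n ∧ (∀ m' ∈ Ms, m' ∈ 𝓖) ∧ c1 + c2 = c ∧
        (∀ s, (D * c1 : ℤ) ≤ τ s + ∑ g, f s g * (Ms.sum g : ℕ)) ∧
        (∀ s, (D * c2 : ℤ) ≤ ∑ g, f s g * m g - ∑ g, f s g * (Ms.sum g : ℕ)) := by
  classical
  let sl : (ℕ × (S → ℕ) × (G → ℕ) × ℕ) → S → ℤ := fun x s =>
    x.2.1 s + ∑ g, f s g * x.2.2.1 g - D * x.2.2.2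
  let φ : (ℕ × (S → ℕ) × (G → ℕ) × ℕ) → (Bool ⊕ S ⊕ S ⊕ S ⊕ G → ℕ) := fun x o =>
    match o with
    | .inl true => x.1
    | .inl false => x.2.2.2
    | .inr (.inl s) => x.2.1 s
    | .inr (.inr (.inl s)) => D * x.1 - x.2.1 s
    | .inr (.inr (.inr (.inl s))) => (sl x s).toNat
    | .inr (.inr (.inr (.inr g))) => x.2.2.1 g
  let E : Set (ℕ × (S → ℕ) × (G → ℕ) × ℕ) :=
    {x | 1 ≤ x.1 ∧ (∀ s, x.2.1 s ≤ D * x.1) ∧ ∀ s, 0 ≤ sl x s}
  let P : (Bool ⊕ S ⊕ S ⊕ S ⊕ G → ℕ) → Prop := fun a => a ∈ φ '' E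
  have hfin : {a | Minimal P a}.Finite := by
    have h1 : IsAntichain (· ≤ ·) {a | Minimal P a} := by
      intro a ha b hb hab hle
      exact hab (le_antisymm hle (hb.2 ha.1 hle))
    exact WellQuasiOrderedLE.finite_of_isAntichain h1
  have hch : ∀ a : {a | Minimal P a}, ∃ x ∈ E, φ x = a := fun a => a.2.1
  choose g hgE hgφ using hch
  have := hfin.fintype
  refine ⟨(Finset.univ : Finset {a | Minimal P a}).toList.map fun a => (g a).2.2.1, ?_⟩
  have hslack : ∀ (x y : ℕ × (S → ℕ) × (G → ℕ) × ℕ), (∀ s, y.2.1 s ≤ x.2.1 s) →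
      (∀ g, y.2.2.1 g ≤ x.2.2.1 g) → y.2.2.2 ≤ x.2.2.2 → ∀ s,
      sl (x.1 - y.1, fun s => x.2.1 s - y.2.1 s, fun g => x.2.2.1 g - y.2.2.1 g,
        x.2.2.2 - y.2.2.2) s = sl x s - sl y s := by
    intro x y h1 h2 h3 s
    show (((x.2.1 s - y.2.1 s : ℕ) : ℤ) + ∑ g, f s g * ((x.2.2.1 g - y.2.2.1 g : ℕ) : ℤ) -
      D * ((x.2.2.2 - y.2.2.2 : ℕ) : ℤ)) = (x.2.1 s + ∑ g, f s g * x.2.2.1 g - D * x.2.2.2) -
        (y.2.1 s + ∑ g, f s g * y.2.2.1 g - D * y.2.2.2)
    have e1 : ∑ g, f s g * ((x.2.2.1 g - y.2.2.1 g : ℕ) : ℤ) =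
        ∑ g, f s g * x.2.2.1 g - ∑ g, f s g * y.2.2.1 g := by
      rw [← Finset.sum_sub_distrib]
      refine Finset.sum_congr rfl fun g _ => ?_
      rw [Nat.cast_sub (h2 g), mul_sub]
    rw [e1, Nat.cast_sub (h1 s), Nat.cast_sub h3]
    ring
  have key : ∀ (n : ℕ) (x : ℕ × (S → ℕ) × (G → ℕ) × ℕ), x.1 = n → x ∈ E →
      ∃ (Ms : List (G → ℕ)) (c1 c2 : ℕ), Ms.length ≤ n ∧
        (∀ m' ∈ Ms, m' ∈ (Finset.univ : Finset {a | Minimal P a}).toList.map
          fun a => (g a).2.2.1) ∧ c1 + c2 = x.2.2.2 ∧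
        (∀ s, (D * c1 : ℤ) ≤ x.2.1 s + ∑ g, f s g * (Ms.sum g : ℕ)) ∧
        (∀ s, (D * c2 : ℤ) ≤ ∑ g, f s g * x.2.2.1 g - ∑ g, f s g * (Ms.sum g : ℕ)) := by
    intro n
    induction n using Nat.strong_induction_on with
    | _ n ih =>
      intro x hxn hx
      obtain ⟨a, ha, ha'⟩ := exists_minimal_le_of_wellFoundedLT P (φ x) ⟨_, hx, rfl⟩
      obtain ⟨hE1, hE2, hE3⟩ := hgE ⟨a, ha'⟩
      have hφ := hgφ ⟨a, ha'⟩
      set y := g ⟨a, ha'⟩ with hy
      have hle : ∀ o, φ y o ≤ φ x o := fun o => by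
        rw [hφ]
        exact ha o
      have hn : y.1 ≤ x.1 := hle (.inl true)
      have hc : y.2.2.2 ≤ x.2.2.2 := hle (.inl false)
      have hτ : ∀ s, y.2.1 s ≤ x.2.1 s := fun s => hle (.inr (.inl s))
      have hco : ∀ s, D * y.1 - y.2.1 s ≤ D * x.1 - x.2.1 s := fun s =>
        hle (.inr (.inr (.inl s)))
      have hsl : ∀ s, (sl y s).toNat ≤ (sl x s).toNat := fun s =>
        hle (.inr (.inr (.inr (.inl s))))
      have hm : ∀ g, y.2.2.1 g ≤ x.2.2.1 g := fun g => hle (.inr (.inr (.inr (.inr g))))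
      have hmemG : y.2.2.1 ∈ (Finset.univ : Finset {a | Minimal P a}).toList.map
          fun a => (g a).2.2.1 := by
        rw [List.mem_map]
        exact ⟨⟨a, ha'⟩, Finset.mem_toList.2 (Finset.mem_univ _), rfl⟩
      have hs0 := hslack x y hτ hm hc
      have hsl' : ∀ s, 0 ≤ sl x s - sl y s := fun s => by
        have h1 := hsl s
        have h2 := hE3 s
        have h3 := hx.2.2 s
        omega
      have hcz : ((x.2.2.2 - y.2.2.2 : ℕ) : ℤ) = x.2.2.2 - y.2.2.2 := Nat.cast_sub hc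
      have e1 : ∀ s, ∑ g, f s g * ((x.2.2.1 g - y.2.2.1 g : ℕ) : ℤ) =
          ∑ g, f s g * x.2.2.1 g - ∑ g, f s g * y.2.2.1 g := by
        intro s
        rw [← Finset.sum_sub_distrib]
        refine Finset.sum_congr rfl fun g _ => ?_
        rw [Nat.cast_sub (hm g), mul_sub]
      by_cases h0 : x.1 - y.1 = 0
      · refine ⟨[y.2.2.1], y.2.2.2, x.2.2.2 - y.2.2.2, ?_, ?_, by omega, fun s => ?_,
          fun s => ?_⟩
        · rw [List.length_singleton, ← hxn]
          exact hx.1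
        · intro m' hm'
          rw [List.mem_singleton.1 hm']
          exact hmemG
        · rw [List.sum_singleton]
          have h1 : (0 : ℤ) ≤ y.2.1 s + ∑ g, f s g * y.2.2.1 g - D * y.2.2.2 := hE3 s
          have h2 : ((y.2.1 s : ℕ) : ℤ) ≤ ((x.2.1 s : ℕ) : ℤ) := by exact_mod_cast hτ s
          linarith
        · rw [List.sum_singleton]
          have h4 : y.1 = x.1 := by omega
          have h5 : x.2.1 s = y.2.1 s := by
            have h6 := hco s
            rw [h4] at h6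
            have h7 := hx.2.1 s
            have h8 := hE2 s
            rw [h4] at h8
            have h9 := hτ s
            omega
          have h6 : (0 : ℤ) ≤ (x.2.1 s + ∑ g, f s g * x.2.2.1 g - D * x.2.2.2) -
            (y.2.1 s + ∑ g, f s g * y.2.2.1 g - D * y.2.2.2) := hsl' s
          rw [h5] at h6
          rw [hcz, mul_sub]
          linarith
      · obtain ⟨Ms, c1, c2, h1, h2, h3, h4, h5⟩ := ih (x.1 - y.1) (by omega)
          (x.1 - y.1, fun s => x.2.1 s - y.2.1 s, fun g => x.2.2.1 g - y.2.2.1 g,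
            x.2.2.2 - y.2.2.2) rfl ⟨by show 1 ≤ x.1 - y.1; omega, fun s => by
              show x.2.1 s - y.2.1 s ≤ D * (x.1 - y.1)
              have h6 := hco s
              have h7 := hx.2.1 s
              have h8 := hE2 s
              have h9 := hτ s
              rw [Nat.mul_sub]
              omega, fun s => by rw [hs0]; exact hsl' s⟩
        have e2 : ∀ s, ∑ g, f s g * (((y.2.2.1 :: Ms).sum g : ℕ) : ℤ) =
            ∑ g, f s g * y.2.2.1 g + ∑ g, f s g * (Ms.sum g : ℕ) := by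
          intro s
          rw [← Finset.sum_add_distrib]
          refine Finset.sum_congr rfl fun g _ => ?_
          rw [List.sum_cons, Pi.add_apply, Nat.cast_add, mul_add]
        refine ⟨y.2.2.1 :: Ms, y.2.2.2 + c1, c2, ?_, ?_, ?_, fun s => ?_, fun s => ?_⟩
        · rw [List.length_cons]
          omega
        · intro m' hm'
          rcases List.mem_cons.1 hm' with rfl | hm'
          · exact hmemG
          · exact h2 m' hm'
        · have h6 : c1 + c2 = x.2.2.2 - y.2.2.2 := h3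
          omega
        · rw [e2]
          have h6 : (D * c1 : ℤ) ≤ ((x.2.1 s - y.2.1 s : ℕ) : ℤ) +
            ∑ g, f s g * (Ms.sum g : ℕ) := h4 s
          rw [Nat.cast_sub (hτ s)] at h6
          have h7 : (0 : ℤ) ≤ y.2.1 s + ∑ g, f s g * y.2.2.1 g - D * y.2.2.2 := hE3 s
          push_cast
          rw [mul_add]
          linarith
        · rw [e2]
          have h6 : (D * c2 : ℤ) ≤ ∑ g, f s g * ((x.2.2.1 g - y.2.2.1 g : ℕ) : ℤ) -
            ∑ g, f s g * (Ms.sum g : ℕ) := h5 s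
          rw [e1] at h6
          linarith
  intro n τ m c hτ hc
  rcases Nat.eq_zero_or_pos n with rfl | hn
  · refine ⟨[], 0, c, le_rfl, fun _ h => absurd h (List.not_mem_nil), by omega, fun s => ?_,
      fun s => ?_⟩
    · simp
    · have h1 := hτ s
      have h2 := hc s
      rw [mul_zero, Nat.le_zero] at h1
      rw [h1] at h2
      simpa using h2
  · exact key n (n, τ, m, c) rfl ⟨hn, hτ, fun s => by
      have := hc s
      show (0 : ℤ) ≤ τ s + ∑ g, f s g * m g - D * c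
      linarith⟩

section

variable {Λ S : Type*} {h : Λ → S → ℤ}

/-- The multiset of a vector of multiplicities. -/
noncomputable def toM {G : Finset Λ} (m : G → ℕ) : Multiset Λ :=
  ∑ g : G, m g • ({(g : Λ)} : Multiset Λ)

lemma vs_toM {G : Finset Λ} (m : G → ℕ) (f : Λ → ℤ) : vs f (toM m) = ∑ g : G, f g * m g := by
  classical
  rw [toM]
  have key : ∀ t : Finset G, vs f (∑ g ∈ t, m g • ({(g : Λ)} : Multiset Λ)) =
      ∑ g ∈ t, f g * m g := by
    intro t
    induction t using Finset.induction_on with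
    | empty => rfl
    | insert a t ha ih =>
      rw [Finset.sum_insert ha, Finset.sum_insert ha, vs_add, ih]
      congr 1
      rw [vs, Multiset.nsmul_singleton, Multiset.map_replicate, Multiset.sum_replicate,
        nsmul_eq_mul, mul_comm]
  exact key _

lemma vs_count [DecidableEq Λ] {G : Finset Λ} {M : Multiset Λ} (hM : ∀ l ∈ M, l ∈ G)
    (f : Λ → ℤ) : vs f M = ∑ g : G, f g * (M.count (g : Λ) : ℤ) := by
  rw [Finset.sum_coe_sort G (fun g => f g * (M.count g : ℤ)), vs,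
    Finset.sum_multiset_map_count]
  have h1 : M.toFinset ⊆ G := fun l hl => hM l (Multiset.mem_toFinset.1 hl)
  rw [Finset.sum_subset h1 (fun l _ hl => by
    rw [Multiset.count_eq_zero_of_notMem (fun h => hl (Multiset.mem_toFinset.2 h)), zero_smul])]
  exact Finset.sum_congr rfl fun l _ => by rw [nsmul_eq_mul, mul_comm]

/-- The generators for words in a finite set of letters, with infinitely many valuations. -/
theorem exists_gensG (G : Finset Λ) (D : ℕ) {B : ℤ} (hpos : ∀ l s, 0 ≤ h l s)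
    (hB : ∀ l s, h l s ≤ B) :
    ∃ 𝓛 : List (Multiset Λ), ∀ (n : ℕ) (τ : S → ℤ) (M : Multiset Λ) (c : ℕ), (∀ l ∈ M, l ∈ G) →
      (∀ s, 0 ≤ τ s ∧ τ s ≤ D * n) → (∀ s, (D * c : ℤ) ≤ τ s + vs (fun l => h l s) M) →
      ∃ (Ms : List (Multiset Λ)) (c1 c2 : ℕ), Ms.length ≤ n ∧ (∀ M' ∈ Ms, M' ∈ 𝓛) ∧
        c1 + c2 = c ∧ (∀ s, (D * c1 : ℤ) ≤ τ s + vs (fun l => h l s) Ms.sum) ∧
        (∀ s, (D * c2 : ℤ) ≤ vs (fun l => h l s) M - vs (fun l => h l s) Ms.sum) := by
  classical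
  let S₀ : Set (G → ℤ) := Set.range fun (s : S) (g : G) => h g.1 s
  have hS₀ : S₀.Finite := by
    refine Set.Finite.subset (Set.Finite.pi' (t := fun _ : G => Set.Icc (0 : ℤ) B)
      fun _ => Set.finite_Icc _ _) ?_
    rintro _ ⟨s, rfl⟩ g
    exact Set.mem_Icc.2 ⟨hpos _ _, hB _ _⟩
  have := hS₀.fintype
  obtain ⟨𝓖, h𝓖⟩ := exists_core (fun (s : S₀) (g : G) => s.1 g) D
  refine ⟨𝓖.map toM, fun n τ M c hM hτ hc => ?_⟩
  -- the minimum of `τ` on the fibres
  have hex : ∀ s : S₀, ∃ (t : S), (fun g : G => h g.1 t) = s.1 ∧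
      ∀ t' : S, (fun g : G => h g.1 t') = s.1 → τ t ≤ τ t' := by
    intro s
    have h1 : ∃ k : ℕ, ∃ t : S, (fun g : G => h g.1 t) = s.1 ∧ (τ t).toNat = k := by
      obtain ⟨t, ht⟩ := s.2
      exact ⟨_, t, ht, rfl⟩
    obtain ⟨t, ht, hk⟩ := Nat.find_spec h1
    refine ⟨t, ht, fun t' ht' => ?_⟩
    have h2 := Nat.find_min' h1 ⟨t', ht', rfl⟩
    have h3 := (hτ t).1
    have h4 := (hτ t').1
    omega
  choose r hr hr' using hex
  have hf : ∀ (s : S₀) (g : G), s.1 g = h g.1 (r s) := fun s g => (congrFun (hr s) g).symm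
  obtain ⟨Ms, c1, c2, h1, h2, h3, h4, h5⟩ := h𝓖 n (fun s => (τ (r s)).toNat)
    (fun g => M.count g.1) c (fun s => by
      have h1 := (hτ (r s)).2
      have h2 : ((τ (r s)).toNat : ℤ) = τ (r s) := Int.toNat_of_nonneg (hτ (r s)).1
      have h3 : (((τ (r s)).toNat : ℕ) : ℤ) ≤ ((D * n : ℕ) : ℤ) := by
        rw [h2]
        push_cast
        exact h1
      exact_mod_cast h3) (fun s => by
      rw [Int.toNat_of_nonneg (hτ (r s)).1]
      have h1 := hc (r s)
      rw [vs_count hM] at h1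
      simp only [hf]
      exact h1)
  have hsum : ∀ (s : S) (Ms : List (G → ℕ)), vs (fun l => h l s) (Ms.map toM).sum =
      ∑ g : G, h g.1 s * ((Ms.sum g : ℕ) : ℤ) := by
    intro s Ms
    induction Ms with
    | nil => simp [vs]
    | cons a Ms ih =>
      rw [List.map_cons, List.sum_cons, vs_add, ih, vs_toM, ← Finset.sum_add_distrib]
      refine Finset.sum_congr rfl fun g _ => ?_
      rw [List.sum_cons, Pi.add_apply, Nat.cast_add, mul_add]
  refine ⟨Ms.map toM, c1, c2, by rwa [List.length_map], ?_, h3, fun s => ?_, fun s => ?_⟩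
  · intro M' hM'
    obtain ⟨m, hm, rfl⟩ := List.mem_map.1 hM'
    exact List.mem_map.2 ⟨m, h2 m hm, rfl⟩
  · have h6 := h4 ⟨fun g => h g.1 s, s, rfl⟩
    have h7 := hr' ⟨fun g => h g.1 s, s, rfl⟩ s rfl
    rw [Int.toNat_of_nonneg (hτ _).1] at h6
    rw [hsum]
    refine h6.trans (add_le_add_left h7 _)
  · have h6 := h5 ⟨fun g => h g.1 s, s, rfl⟩
    rw [hsum, vs_count hM]
    exact h6

end

end Pool.Agent.R936.GTF
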