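import Pool.Agent.R936.GTF.Main
import Pool.Agent.R936.GTF.Dick
import Pool.Agent.R936.ArbF.FinD

/-!
# The generalised Tate conjecture for products with an arbitrary factor
-/

set_option linter.unusedVariables false
set_option linter.unusedSectionVars false

open CategoryTheory AlgebraicGeometry TensorProduct

universe u v w

namespace Pool.Agent.R936.GTF

open Pool.Agent.H914 Pool.Agent.W534 VarClass Obj WeilCohomology
open Pool.Agent.Y163 (HBasis)
open Pool.Agent.R940 (IsEig repr_zero IsWeilFamily root_charpoly exists_ebasis HasIntegralPolys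
  IsSlopeDenominator slopeDenominator deg_le)
open Pool.Agent.R936.Hel Pool.Agent.R936.ArbF
open Pool.Agent.R936.GHC (vs vs_cons vs_add vs_zero vs_sub vs_nonneg coneBound)
open Pool.Agent.R936.Arb (zw contr contr_zw powL HasZ lamL lamL_coe lamL_append exists_zero
  exists_block exists_pow exists_sep)

section

variable {I : Type*} {ι : I → Type*} {S : Type*} {h : (Σ i, ι i) → S → ℤ}

lemma lam_vs (M : Multiset (Σ i, ι i)) (s : S) : Arb.lam h M s = vs (fun l => h l s) M := by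
  rw [lam_apply]
  rfl

lemma lam_sum (Ms : List (Multiset (Σ i, ι i))) :
    (Ms.map (Arb.lam h)).sum = Arb.lam h Ms.sum := by
  induction Ms with
  | nil => rfl
  | cons a Ms ih => rw [List.map_cons, List.sum_cons, ih, List.sum_cons, Arb.lam_add]

/-- Sums of few multisets are realised by words of a power. -/
lemma exists_real (hz : ∀ l : Σ i, ι i, HasZ h l.1) (l0 : Σ i, ι i)
    (𝓛 : List (Multiset (Σ i, ι i))) :
    ∃ L0 : List I, ∀ (n : ℕ) (Ms : List (Multiset (Σ i, ι i))), Ms.length ≤ n →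
      (∀ M' ∈ Ms, M' ∈ 𝓛) →
      ∃ b : List (Σ i, ι i), b.map Sigma.fst = l0.1 :: powL L0 l0.1 n ∧
        ∀ s, vs (fun l => h l s) ↑b = vs (fun l => h l s) Ms.sum := by
  classical
  obtain ⟨z0, hz0⟩ := hz l0
  let G' : List (List (Σ i, ι i)) := 𝓛.map fun M => M.toList
  refine ⟨(G'.flatten).map Sigma.fst, fun n Ms h1 h2 => ?_⟩
  set L0 := (G'.flatten).map Sigma.fst with hL0
  have hzL : ∀ i ∈ l0.1 :: L0, HasZ h i := by
    intro i hi
    rcases List.mem_cons.1 hi with rfl | hi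
    · exact hz l0
    · obtain ⟨l, _, rfl⟩ := List.mem_map.1 hi
      exact hz l
  have hB : ∀ m ∈ 𝓛.map (Arb.lam h), ∃ b : List (Σ i, ι i),
      b.map Sigma.fst = l0.1 :: L0 ∧ lamL h b = m := by
    intro m hm
    obtain ⟨M', hM', rfl⟩ := List.mem_map.1 hm
    obtain ⟨b, h4, h5⟩ := exists_block (h := h) hz G' M'.toList
      (List.mem_map.2 ⟨M', hM', rfl⟩)
    refine ⟨⟨l0.1, z0⟩ :: b, ?_, ?_⟩
    · rw [List.map_cons, h4]
    · have h6 : lamL h (⟨l0.1, z0⟩ :: b) = h ⟨l0.1, z0⟩ + lamL h b := by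
        rw [lamL, List.map_cons, List.sum_cons]
        rfl
      rw [h6, hz0, zero_add, h5, ← lamL_coe, Multiset.coe_toList]
  have hfin : ∀ b : List (Σ i, ι i), lamL h b = (Ms.map (Arb.lam h)).sum →
      ∀ s, vs (fun l => h l s) ↑b = vs (fun l => h l s) Ms.sum := by
    intro b hb s
    rw [← lam_vs, ← lam_vs, lamL_coe, hb, lam_sum]
  rcases Nat.eq_zero_or_pos n with rfl | hn
  · obtain ⟨b, h4, h5⟩ := exists_zero (h := h) (l0.1 :: powL L0 l0.1 0) (by
      intro i hi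
      refine hzL i ?_
      rw [powL, Nat.zero_sub, List.replicate_zero, List.flatten_nil, List.append_nil] at hi
      exact hi)
    have h6 : Ms = [] := List.length_eq_zero_iff.1 (Nat.le_zero.1 h1)
    exact ⟨b, h4, hfin b (by rw [h5, h6]; rfl)⟩
  · obtain ⟨b, h4, h5⟩ := exists_pow (h := h) hzL hB n (Ms.map (Arb.lam h)) (by
      rw [List.length_map]; exact h1) (fun m hm => by
      obtain ⟨M', hM', rfl⟩ := List.mem_map.1 hm
      exact List.mem_map.2 ⟨M', h2 M' hM', rfl⟩)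
    refine ⟨b, ?_, hfin b h5⟩
    rw [h4, powL]
    obtain ⟨m, rfl⟩ : ∃ m, n = m + 1 := ⟨n - 1, by omega⟩
    rw [List.replicate_succ, List.flatten_cons, Nat.add_sub_cancel, List.cons_append]

end

variable {k : Type u} [Field k] {𝒱 : VarClass k} {ops : CycleOps 𝒱}
  {W : WeilCohomology.{u, v} ops} {Y Z Z' : 𝒱.Obj} {p : ℕ} {Φ : FrobSystem W p}
  {I : Type w} {X : I → 𝒱.Obj} {N : Filtration W} {ι : I → Type v} {κZ : Type v}
  {B : ∀ i, HBasis W (X i) (ι i)} {BZ : HBasis W Z κZ} {lam : ∀ i, ι i → W.K}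
  {lamZ : κZ → W.K} {e D DZ : ℕ}

section

variable [hp : Fact p.Prime] [∀ i, Finite (ι i)] (hN : IsCon N)
  (hB : ∀ i, IsEig Φ (B i) (lam i)) (he : ∀ i, Φ.e (X i) = e) (he0 : 0 < e) (hD : 0 < D)
  (hW : IsWeilFamily p e D (lm lam) (dg B))

lemma rwi_pp (l : Σ i, ι i) (ψ : Emb W.K p) :
    rwi he0 hW l ψ = PP he0 hW (ψ, true) l - PP he0 hW (ψ, false) l := by
  rw [rwi_vlz, PP, PP, if_pos rfl, if_neg (by simp)]
  ring

include hB he hD in
/-- Finitely many representatives. -/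
lemma exists_rep {R d : ℕ}
    (hR : ∀ s : Fin (R + 1) → (Σ i, ι i), ∃ a : Fin (R + 1) → ℤ, a ≠ 0 ∧
      ∑ i, a i • rwi he0 hW (s i) = 0) (hd : ∀ i, (X i).dim ≤ d) :
    ∃ (G : Finset (Σ i, ι i)) (rep : (Σ i, ι i) → (Σ i, ι i)),
      ∀ l, rep l ∈ G ∧ Eqv he0 hW l (rep l) := by
  classical
  obtain ⟨s, hs⟩ := exists_sep hR
  have hrow : ∀ (ψ : Emb W.K p) (l : Σ i, ι i), |rwi he0 hW l ψ| ≤ ((D * d : ℕ) : ℤ) := by
    intro ψ l
    have h1 := pp_nonneg he0 hW (ψ, true) l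
    have h2 := pp_nonneg he0 hW (ψ, false) l
    have h3 := pp_le hB he he0 hD hW (ψ, true) l
    have h4 := pp_le hB he he0 hD hW (ψ, false) l
    have h6 : (D : ℤ) * (X l.1).dim ≤ ((D * d : ℕ) : ℤ) := by
      push_cast
      exact mul_le_mul_of_nonneg_left (by exact_mod_cast hd l.1) (Int.natCast_nonneg D)
    rw [rwi_pp, abs_le]
    constructor <;> linarith
  choose st hst1 hst2 using exists_dual_letter hB he he0 hD hW
  have hst : ∀ l ψ, rwi he0 hW (st l) ψ = - rwi he0 hW l ψ := by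
    intro l ψ
    have h1 := hst2 l (ψ, true)
    have h2 := hst2 l (ψ, false)
    rw [rwi_pp, rwi_pp]
    linarith
  let T : Set ((s → ℤ) × Bool) := Set.range fun l : Σ i, ι i =>
    ((fun ψ : s => rwi he0 hW l ψ.1), decide (dg B l % 2 = 0))
  have hT : T.Finite := by
    have h1 : (Set.pi Set.univ fun _ : s => Set.Icc (-((D * d : ℕ) : ℤ)) ((D * d : ℕ) : ℤ)).Finite :=
      Set.Finite.pi' (t := fun _ : s => Set.Icc (-((D * d : ℕ) : ℤ)) ((D * d : ℕ) : ℤ))
        (fun _ => Set.finite_Icc _ _) |>.subset (fun x hx i => hx i (Set.mem_univ i))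
    refine (h1.prod (Set.finite_univ (α := Bool))).subset ?_
    rintro _ ⟨l, rfl⟩
    exact ⟨fun ψ _ => Set.mem_Icc.2 (abs_le.1 (hrow ψ.1 l)), Set.mem_univ _⟩
  have : Fintype T := hT.fintype
  let g : T → (Σ i, ι i) := fun x => x.2.choose
  have hg : ∀ x : T, ((fun ψ : s => rwi he0 hW (g x) ψ.1), decide (dg B (g x) % 2 = 0)) = x.1 :=
    fun x => x.2.choose_spec
  refine ⟨Finset.univ.image g, fun l => g ⟨_, l, rfl⟩, fun l => ⟨?_, ?_⟩⟩
  · exact Finset.mem_image_of_mem _ (Finset.mem_univ _)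
  · set l' := g ⟨_, l, rfl⟩ with hl'
    have h1 := hg ⟨_, l, rfl⟩
    rw [← hl'] at h1
    have h2 : ∀ ψ ∈ s, rwi he0 hW l' ψ = rwi he0 hW l ψ := fun ψ hψ =>
      congrFun (congrArg Prod.fst h1) ⟨ψ, hψ⟩
    have h3 : decide (dg B l' % 2 = 0) = decide (dg B l % 2 = 0) := congrArg Prod.snd h1
    rw [decide_eq_decide] at h3
    have hl : ∀ ψ, Arb.lam (rwi he0 hW) {l, st l'} ψ = rwi he0 hW l ψ - rwi he0 hW l' ψ := by
      intro ψ
      rw [lam_apply]
      have : ((({l, st l'} : Multiset (Σ i, ι i))).map fun l => rwi he0 hW l ψ).sum =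
        rwi he0 hW l ψ + rwi he0 hW (st l') ψ := by simp
      rw [this, hst]
      ring
    have h4 := hs {l, st l'} (fun ψ hψ => by rw [hl, h2 ψ hψ, sub_self])
    have h6 : dg B l % 2 = dg B l' % 2 := by omega
    refine ⟨?_, h6⟩
    funext ψ
    have h5 := congrFun h4 ψ
    rw [hl] at h5
    exact sub_eq_zero.1 h5

lemma pp_zero {l : Σ i, ι i} (h0 : dg B l = 0) (s : Emb W.K p × Bool) : PP he0 hW s l = 0 := by
  rcases s with ⟨ψ, _ | _⟩
  · have h1 := pp_nonneg he0 hW (ψ, false) l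
    have h2 := pp_nonneg he0 hW (ψ, true) l
    rw [PP, if_neg (by simp)] at h1 ⊢
    rw [PP, if_pos rfl] at h2
    rw [h0] at h1 ⊢
    push_cast at h1 ⊢
    dsimp only at h1 h2 ⊢
    linarith
  · have h1 := pp_nonneg he0 hW (ψ, false) l
    have h2 := pp_nonneg he0 hW (ψ, true) l
    rw [PP, if_neg (by simp)] at h1
    rw [PP, if_pos rfl] at h2 ⊢
    rw [h0] at h1
    push_cast at h1
    dsimp only at h1 h2 ⊢
    linarith

lemma hasZ_pp (l : Σ i, ι i) : HasZ (fun l s => PP he0 hW s l) l.1 := by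
  by_contra hcon
  have h1 : ∀ a, (B l.1).deg a ≠ 0 := by
    intro a ha
    apply hcon
    refine ⟨a, ?_⟩
    funext s
    exact pp_zero he0 hW (l := ⟨l.1, a⟩) ha s
  have h2 : ∀ a, (B l.1).b.repr (1 : W.H (X l.1)) a = 0 := fun a =>
    repr_zero (W.isInternal (X l.1)).submodule_iSupIndep (B l.1).b
      (fun a => (B l.1).deg a) (fun a => (B l.1).mem a) (W.one_mem _) (h1 a)
  have h3 : (1 : W.H (X l.1)) = 0 := by
    have := Fintype.ofFinite (ι l.1)
    rw [← (B l.1).b.sum_repr 1]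
    exact Finset.sum_eq_zero fun a _ => by rw [h2, zero_smul]
  apply (B l.1).b.ne_zero l.2
  rw [← mul_one ((B l.1).b l.2), h3, mul_zero]

variable (hWE : IsWeilFamily p e (D * DZ) (lm (lamE lam lamZ)) (dg (BE B BZ)))

lemma vlz_up (ψ : Emb W.K p) (l : Σ i, ι i) :
    vlz he0 hWE ψ (up l) = DZ * vlz he0 hW ψ l := by
  have h1 := vlz_eq he0 hWE ψ (up l)
  have h2 := vlz_eq he0 hW ψ l
  have h3 : om hWE (up l) = om hW l := rfl
  rw [h3] at h1
  have h4 : (vlz he0 hWE ψ (up l) : ℝ) = ((DZ * vlz he0 hW ψ l : ℤ) : ℝ) := by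
    rw [h1]
    push_cast
    rw [h2]
    ring
  exact_mod_cast h4

lemma pp_up (s : Emb W.K p × Bool) (l : Σ i, ι i) :
    PP he0 hWE s (up l) = DZ * PP he0 hW s l := by
  rw [PP, PP, vlz_up he0 hW hWE]
  have h1 : dg (BE B BZ) (up l) = dg B l := rfl
  rw [h1]
  split_ifs
  · rfl
  · push_cast
    ring

lemma vs_up (s : Emb W.K p × Bool) (M : Multiset (Σ i, ι i)) :
    vs (PP he0 hWE s) (M.map up) = DZ * vs (PP he0 hW s) M := by
  induction M using Multiset.induction_on with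
  | empty => rw [Multiset.map_zero, vs_zero, vs_zero, mul_zero]
  | cons a M ih => rw [Multiset.map_cons, vs_cons, vs_cons, ih, pp_up he0 hW hWE, mul_add]

end

/-- **The geometric part.** -/
theorem gtc_geo [hp : Fact p.Prime] [IsAlgClosed W.K] [∀ i, Finite (ι i)] [Finite κZ]
    (hN : IsCon N) (hB : ∀ i, IsEig Φ (B i) (lam i)) (hBZ : IsEig Φ BZ lamZ)
    (he : ∀ i, Φ.e (X i) = e) (heZ : Φ.e Z = e) (he0 : 0 < e) (hD : 0 < D) (hDZ : 0 < DZ)
    (hW : IsWeilFamily p e D (lm lam) (dg B))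
    (hWE : IsWeilFamily p e (D * DZ) (lm (lamE lam lamZ)) (dg (BE B BZ)))
    (hall : ∀ (M' : Multiset (Σ i, ι i)) (c : ℤ), (∀ s, D * c ≤ vs (PP he0 hW s) M') →
      Con N B M' c) {i0 : I} {L' : List I}
    (hb : ∀ (a : κZ) (M : Multiset (Σ i, ι i)) (c : ℕ),
      (∀ s, ((D * DZ : ℕ) * c : ℤ) ≤ PP he0 hWE s (zl a) + DZ * vs (PP he0 hW s) M) →
      ∃ (b : List (Σ i, ι i)) (c1 c2 : ℤ), b.map Sigma.fst = i0 :: L' ∧ (c : ℤ) ≤ c1 + c2 ∧
        (∀ s, ((D * DZ : ℕ) : ℤ) * c1 ≤ PP he0 hWE s (zl a) + DZ * vs (PP he0 hW s) ↑b) ∧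
        ∀ s, D * c2 ≤ vs (PP he0 hW s) M - vs (PP he0 hW s) ↑b)
    (hZ : GTCi Φ N (Z.prod (prodOf X i0 L'))) (i : I) (L : List I) :
    GTCi Φ N (Z.prod (prodOf X i L)) := by
  classical
  have hBE : ∀ o, IsEig Φ (BE B BZ o) (lamE lam lamZ o) := by
    rintro (_ | i)
    · exact hBZ
    · exact hB i
  have heE : ∀ o, Φ.e (XE X Z o) = e := by
    rintro (_ | i)
    · exact heZ
    · exact he i
  have hDE : 0 < D * DZ := Nat.mul_pos hD hDZ
  have hwords := hasWords_prod (X := X) B (fun i => inferInstance)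
  obtain ⟨κ, hκ, Nw, b, F, hbF⟩ := words_prod (BZ := BZ) (Z := Z) (hwords L i)
  have hbl : ∀ x, b x = lwf (BE B BZ) ((⟨zl x.1, fst Z _⟩ : Lt (XE X Z) (ιE ι κZ) (Z.prod _)) ::
      pull (snd Z _) ((Nw x.2).map upL)) := fun x => by rw [lwf_zw, (hbF x).1]
  have := Fintype.ofFinite (κZ × κ)
  refine gtc_of_words fun n c α y hy hy' hα => ?_
  rw [← b.sum_repr y]
  refine Submodule.sum_mem _ fun x _ => ?_
  by_cases h0 : b.repr y x = 0
  · rw [h0, zero_smul]
    exact Submodule.zero_mem _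
  refine Submodule.smul_mem _ _ ?_
  have hv := vals_of_repr hBE he0 hDE hWE hbl (by
    obtain ⟨S, S', hS, hS', hSS, h1⟩ := frob_lt Φ heE he0 F
    exact ⟨S, S', hS, hS', hSS, fun a y hy t x => h1 _ ((hbF a).2 y hy) t x⟩) hy hy' hα h0
  have hvs : ∀ (s : Emb W.K p × Bool) {P : 𝒱.Obj} (C : List (Lt X ι P)),
      vs (PP he0 hWE s) (↑(((⟨zl x.1, fst Z P⟩ : Lt (XE X Z) (ιE ι κZ) (Z.prod P)) ::
        pull (snd Z P) (C.map upL)).map Sigma.fst) : Multiset (Σ o, ιE ι κZ o)) =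
      PP he0 hWE s (zl x.1) + DZ * vs (PP he0 hW s) ↑(C.map Sigma.fst) := by
    intro s P C
    rw [List.map_cons, pull_fst, map_up_fst, ← Multiset.cons_coe, vs_cons, ← vs_up he0 hW hWE]
    rfl
  obtain ⟨b1, c1, c2, hb1, hb2, hb3, hb4⟩ := hb x.1 ↑((Nw x.2).map Sigma.fst) c (fun s => by
    have h1 := hv s
    rw [hvs] at h1
    exact_mod_cast h1)
  match b1, hb1, hb3, hb4 with
  | l :: b2, hb1, hb3, hb4 =>
    rw [List.map_cons] at hb1
    obtain ⟨h1, h2⟩ := List.cons.inj hb1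
    subst h1
    subst h2
    obtain ⟨C, hC1, hC2, _⟩ := isCan_prod hB b2 l
    have hmem : zw (BZ.b x.1) (lwf B C) ∈
        N (Z.prod (prodOf X l.1 (b2.map Sigma.fst))) c1.toNat := by
      rw [← lwf_zw]
      refine word_mem hN hBE heE he0 hDE hWE hZ fun s => ?_
      rw [hvs, hC1]
      exact hb3 s
    obtain ⟨κ', hκ', b', F', N', hN'⟩ := hwords (b2.map Sigma.fst) l.1
    obtain ⟨m, hm⟩ := exists_dualv b' hC2
    rw [(hN' m).1] at hm
    have hdv := dual_vs hB he he0 hD hW hm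
    let T₀ := prodOf X l.1 (b2.map Sigma.fst)
    have hword : zw (lwf B (N' m)) (lwf B (Nw x.2)) ∈
        N (T₀.prod (prodOf X i L)) (T₀.dim + c2).toNat := by
      have h3 := hall (↑((N' m).map Sigma.fst) + ↑((Nw x.2).map Sigma.fst)) (T₀.dim + c2) (by
        intro s
        have h4 : vs (PP he0 hW s) (↑(C.map Sigma.fst) : Multiset (Σ i, ι i)) +
          vs (PP he0 hW s) ↑((N' m).map Sigma.fst) = D * T₀.dim := hdv s
        have h5 := hb4 s
        rw [hC1] at h4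
        rw [vs_add, mul_add]
        linarith)
      rw [zw, map_lwf, map_lwf, ← lwf_append]
      refine h3 _ _ ?_
      rw [List.map_append, pull_fst, pull_fst, ← Multiset.coe_add]
    have h5 : contr (zw (BZ.b x.1) (lwf B C)) (zw (lwf B (N' m)) (lwf B (Nw x.2))) ∈
        N (Z.prod (prodOf X i L)) c := by
      have h6 := nz_mul hN (hN.map _ _ (Obj.lift (snd T₀ (Z.prod (prodOf X i L)) ≫ fst Z _)
        (fst T₀ (Z.prod (prodOf X i L)))) _ _ hmem)
        (hN.map _ _ (Obj.lift (fst T₀ (Z.prod (prodOf X i L)))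
          (snd T₀ (Z.prod (prodOf X i L)) ≫ snd Z _)) _ _ hword)
      have h7 := nz_push hN (snd T₀ (Z.prod (prodOf X i L))) (b := c1 + c2) (by
        rw [dim_prod]
        push_cast
        ring) h6
      exact hN.anti _ _ _ (by omega) h7
    rw [contr_zw (lwf_gr _) (lwf_gr _)] at h5
    have h6 := Submodule.smul_mem _ (W.tr _ (lwf B C * lwf B (N' m)))⁻¹ h5
    rw [smul_smul, inv_mul_cancel₀ hm, one_smul] at h6
    rw [(hbF x).1]
    exact h6

/-- **One product for all varieties.** -/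
theorem gtci_arb [hp : Fact p.Prime] [IsAlgClosed W.K] {σ : W.K →+* ℂ} [Nonempty I]
    (hRH : ∀ Z, RiemannHyp Φ σ Z) (hN : IsCon N) {e : ℕ} (he : ∀ i, Φ.e (X i) = e)
    (hint : ∀ i, HasIntegralPolys Φ σ (X i)) {D : ℕ} (hD : ∀ i, IsSlopeDenominator Φ σ (X i) D)
    {R : ℕ} (hR : RankLe {z | ∃ i, z ∈ eigenvalues Φ σ (X i)} R) {d : ℕ}
    (hd : ∀ i, (X i).dim ≤ d)
    (h : ∀ i L, (i :: L).length ≤ gtcBound R d D → GTCi Φ N (prodOf X i L)) :
    ∃ (i0 : I) (L0 : List I), ∀ Z : 𝒱.Obj, Φ.e Z = e → HasIntegralPolys Φ σ Z →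
      (GTCi Φ N (Z.prod (powerOf X i0 L0 Z.dim)) ↔
        ∀ i L, GTCi Φ N (Z.prod (prodOf X i L))) := by
  classical
  choose ι hfin B lam hB using fun i => exists_ebasis Φ (X i)
  obtain ⟨i1⟩ := ‹Nonempty I›
  have he0 : 0 < e := he i1 ▸ Φ.e_pos _
  have hD0 : 0 < D := (hD i1).1
  -- the case without letters
  rcases isEmpty_or_nonempty (Σ i, ι i) with hem | ⟨⟨l0⟩⟩
  · refine ⟨i1, [], fun Z _ _ => ⟨fun _ i L n c V hV hst hα x hx => ?_, fun hZ => hZ _ _⟩⟩
    have h0 : x = 0 := by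
      obtain ⟨g⟩ := exists_prj X L i
      have h1 : (1 : W.H (X i)) = 0 := by
        have := Fintype.ofFinite (ι i)
        have h2 := (B i).b.sum_repr 1
        rw [← h2]
        exact Finset.sum_eq_zero fun a _ => (hem.false ⟨i, a⟩).elim
      have h2 : (1 : W.H (Z.prod (prodOf X i L))) = 0 := by
        have h3 := congrArg (W.map (snd Z _ ≫ g)) h1
        rwa [map_one, map_zero] at h3
      rw [← mul_one x, h2, mul_zero]
    rw [h0]
    exact Submodule.zero_mem _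
  have hW : IsWeilFamily p e D (lm lam) (dg B) := isWeilFamily hB (fun i => hRH _) hint hD he
  have hne := nonempty_emb W.K p
  have hrk := rank_rows hB (fun i => hRH _) he0 he hW hR
  have hall : ∀ (M' : Multiset (Σ i, ι i)) (c : ℤ), (∀ s, D * c ≤ vs (PP he0 hW s) M') →
      Con N B M' c := fun M' c hc => con_all hN hB he he0 hD0 hW hne h hrk hd (le_of_eq rfl) hc
  obtain ⟨G, rep, hrep⟩ := exists_rep hB he he0 hD0 hW hrk hd
  have hpos : ∀ (l : Σ i, ι i) (s : Emb W.K p × Bool), 0 ≤ PP he0 hW s l := fun l s =>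
    pp_nonneg he0 hW s l
  have hbdd : ∀ (l : Σ i, ι i) (s : Emb W.K p × Bool), PP he0 hW s l ≤ ((D * d : ℕ) : ℤ) := by
    intro l s
    refine (pp_le hB he he0 hD0 hW s l).trans ?_
    push_cast
    exact mul_le_mul_of_nonneg_left (by exact_mod_cast hd l.1) (Int.natCast_nonneg D)
  obtain ⟨𝓛, h𝓛⟩ := exists_gensG (h := fun (l : Σ i, ι i) s => PP he0 hW s l) G D hpos hbdd
  obtain ⟨L0, hL0⟩ := exists_real (hasZ_pp he0 hW) l0 𝓛
  refine ⟨l0.1, L0, fun Z heZ hZint => ⟨fun hZ i L => ?_, fun hZ => hZ _ _⟩⟩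
  obtain ⟨κZ, hκZ, BZ, lamZ, hBZ⟩ := exists_ebasis Φ Z
  have hDZ := slopeDenominator (hRH Z) hZint
  set DZ := Φ.e Z * (Module.finrank W.K (W.H Z)).factorial with hDZdef
  have hBE : ∀ o, IsEig Φ (BE B BZ o) (lamE lam lamZ o) := by
    rintro (_ | i)
    · exact hBZ
    · exact hB i
  have heE : ∀ o, Φ.e (XE X Z o) = e := by
    rintro (_ | i)
    · exact heZ
    · exact he i
  have hWE : IsWeilFamily p e (D * DZ) (lm (lamE lam lamZ)) (dg (BE B BZ)) := by
    refine isWeilFamily hBE (fun o => hRH _) ?_ ?_ heE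
    · rintro (_ | i)
      · exact hZint
      · exact hint i
    · rintro (_ | i)
      · show IsSlopeDenominator Φ σ Z (D * DZ)
        rw [mul_comm]
        exact slope_mul hDZ hD0
      · exact slope_mul (hD i) hDZ.1
  have hDZ0 : 0 < DZ := hDZ.1
  have hDZz : (0 : ℤ) < DZ := by exact_mod_cast hDZ0
  have hDE : 0 < D * DZ := Nat.mul_pos hD0 hDZ0
  have hfinE : ∀ o, Finite (ιE ι κZ o) := by
    rintro (_ | i)
    · exact hκZ
    · exact hfin i
  refine gtc_geo hN hB hBZ he heZ he0 hD0 hDZ0 hW hWE hall (i0 := l0.1)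
    (L' := powL L0 l0.1 Z.dim) (fun a M c hc => ?_) hZ i L
  set δ := vs (fun l => dl B l (rep l)) M with hδ
  have hM' : ∀ s, vs (PP he0 hW s) (M.map rep) = vs (PP he0 hW s) M - D * δ := fun s =>
    vs_rep he0 hW (fun l => (hrep l).2) s M
  let τ : (Emb W.K p × Bool) → ℤ := fun s => PP he0 hWE s (zl a) / DZ
  have hτ1 : ∀ s, DZ * τ s ≤ PP he0 hWE s (zl a) := fun s => Int.mul_ediv_self_le hDZz.ne'
  have hτ0 : ∀ s, 0 ≤ τ s := fun s => Int.ediv_nonneg (pp_nonneg he0 hWE s (zl a)) hDZz.le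
  have hτ2 : ∀ s, τ s ≤ D * Z.dim := fun s => by
    have h1 : PP he0 hWE s (zl a) ≤ ((D * DZ : ℕ) : ℤ) * Z.dim :=
      pp_le hBE heE he0 hDE hWE s (zl a)
    refine Int.ediv_le_of_le_mul hDZz (h1.trans (le_of_eq ?_))
    push_cast
    ring
  obtain ⟨Ms, c1, c2, h1, h2, h3, h4, h5⟩ := h𝓛 Z.dim τ (M.map rep) (c - δ).toNat (by
    intro l hl
    obtain ⟨l', _, rfl⟩ := Multiset.mem_map.1 hl
    exact (hrep l').1) (fun s => ⟨hτ0 s, hτ2 s⟩) (fun s => by
    show ((D : ℤ) * ((c - δ).toNat : ℕ)) ≤ τ s + vs (PP he0 hW s) (M.map rep)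
    rcases le_total (c - δ) 0 with h0 | h0
    · rw [Int.toNat_of_nonpos h0, Nat.cast_zero, mul_zero]
      exact add_nonneg (hτ0 s) (vs_nonneg (fun l => hpos l s) _)
    · rw [Int.toNat_of_nonneg h0, hM']
      have h1 : D * c - vs (PP he0 hW s) M ≤ τ s := by
        refine (Int.le_ediv_iff_mul_le hDZz).2 ?_
        have h2 := hc s
        push_cast at h2
        linarith
      linarith)
  obtain ⟨b, hb1, hb2⟩ := hL0 Z.dim Ms h1 h2
  have hb3 : ∀ s, vs (PP he0 hW s) ↑b = vs (PP he0 hW s) Ms.sum := hb2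
  refine ⟨b, c1, c2 + δ, hb1, ?_, fun s => ?_, fun s => ?_⟩
  · have h6 := Int.self_le_toNat (c - δ)
    have h7 : ((c1 + c2 : ℕ) : ℤ) = (c1 : ℤ) + c2 := by push_cast; ring
    rw [← h3] at h6
    rw [h7] at h6
    linarith
  · rw [hb3]
    have h6 : (D * c1 : ℤ) ≤ τ s + vs (PP he0 hW s) Ms.sum := h4 s
    have h7 := mul_le_mul_of_nonneg_left h6 hDZz.le
    have h8 := hτ1 s
    push_cast
    nlinarith
  · rw [hb3]
    have h6 : (D * c2 : ℤ) ≤ vs (PP he0 hW s) (M.map rep) - vs (PP he0 hW s) Ms.sum := h5 s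
    rw [hM'] at h6
    rw [mul_add]
    linarith

/-- **One product for all varieties.** -/
theorem gtc_arb [hp : Fact p.Prime] [IsAlgClosed W.K] {σ : W.K →+* ℂ} [Nonempty I]
    (hRH : ∀ Z, RiemannHyp Φ σ Z) (hN : IsConiveau N) {e : ℕ} (he : ∀ i, Φ.e (X i) = e)
    (hint : ∀ i, HasIntegralPolys Φ σ (X i)) {D : ℕ} (hD : ∀ i, IsSlopeDenominator Φ σ (X i) D)
    {R : ℕ} (hR : RankLe {z | ∃ i, z ∈ eigenvalues Φ σ (X i)} R) {d : ℕ}
    (hd : ∀ i, (X i).dim ≤ d)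
    (h : ∀ i L, (i :: L).length ≤ gtcBound R d D → GTC Φ N (prodOf X i L)) :
    ∃ (i0 : I) (L0 : List I), ∀ Z : 𝒱.Obj, Φ.e Z = e → HasIntegralPolys Φ σ Z →
      (GTC Φ N (Z.prod (powerOf X i0 L0 Z.dim)) ↔
        ∀ i L, GTC Φ N (Z.prod (prodOf X i L))) := by
  obtain ⟨i0, L0, h1⟩ := gtci_arb hRH hN.toCon he hint hD hR hd
    (fun i L hL => gtci_iff.2 (h i L hL))
  refine ⟨i0, L0, fun Z heZ hZ => ?_⟩
  rw [← gtci_iff, h1 Z heZ hZ]
  exact forall_congr' fun i => forall_congr' fun L => gtci_iff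

end Pool.Agent.R936.GTF
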