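import Pool.Agent.R936.GTF.Wrd

/-!
# The generalised Tate conjecture for words
-/

set_option linter.unusedVariables false
set_option linter.unusedSectionVars false

open CategoryTheory AlgebraicGeometry

universe u v w

namespace Pool.Agent.R936.GTF

open Pool.Agent.H914 Pool.Agent.W534 VarClass Obj WeilCohomology
open Pool.Agent.Y163 (HBasis)
open Pool.Agent.R940 (IsEig repr_zero IsWeilFamily)
open Pool.Agent.R936.Hel Pool.Agent.R936.ArbF
open Pool.Agent.R936.GHC (vs vs_cons vs_add vs_zero vs_sub coneBound exists_sub_cone range_le)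

section

variable {Λ : Type*}

lemma option_split (M : Multiset (Option Λ)) : ∃ (M' : Multiset Λ) (c : ℕ),
    M = M'.map some + Multiset.replicate c none := by
  induction M using Multiset.induction_on with
  | empty => exact ⟨0, 0, rfl⟩
  | cons a M ih =>
    obtain ⟨M', c, rfl⟩ := ih
    rcases a with _ | a
    · refine ⟨M', c + 1, ?_⟩
      rw [Multiset.replicate_succ, Multiset.add_cons]
    · refine ⟨a ::ₘ M', c, ?_⟩
      rw [Multiset.map_cons, Multiset.cons_add]

lemma option_inj {M M' : Multiset Λ} {c c' : ℕ} (h : M.map some + Multiset.replicate c none =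
    M'.map some + Multiset.replicate c' none) : M = M' ∧ c = c' := by
  classical
  have key : ∀ (M : Multiset Λ) (c : ℕ),
      (M.map some + Multiset.replicate c (none : Option Λ)).filterMap id = M := by
    intro M c
    rw [Multiset.filterMap_add, Multiset.filterMap_map]
    have h1 : (Multiset.replicate c (none : Option Λ)).filterMap id = 0 := by
      induction c with
      | zero => rfl
      | succ c ih => rw [Multiset.replicate_succ, Multiset.filterMap_cons_none _ _ rfl, ih]
    rw [h1, add_zero]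
    induction M using Multiset.induction_on with
    | empty => rfl
    | cons a M ih =>
      rw [Multiset.filterMap_cons_some (id ∘ some) a M (b := a) rfl, ih]
  have h1 := congrArg (Multiset.filterMap id) h
  rw [key, key] at h1
  refine ⟨h1, ?_⟩
  have h2 := congrArg Multiset.card h
  rw [h1, Multiset.card_add, Multiset.card_add, Multiset.card_replicate,
    Multiset.card_replicate] at h2
  omega

lemma vs_option (f : Option Λ → ℤ) (M : Multiset Λ) (c : ℕ) :
    vs f (M.map some + Multiset.replicate c none) = vs (fun l => f (some l)) M + c * f none := by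
  rw [vs_add]
  congr 1
  · rw [vs, vs, Multiset.map_map]
    rfl
  · rw [vs, Multiset.map_replicate, Multiset.sum_replicate, nsmul_eq_mul]

end

variable {k : Type u} [Field k] {𝒱 : VarClass k} {ops : CycleOps 𝒱}
  {W : WeilCohomology.{u, v} ops} {Y Z Z' : 𝒱.Obj} {p : ℕ} {Φ : FrobSystem W p}
  {I : Type w} {X : I → 𝒱.Obj} {ι : I → Type v}
  {B : ∀ i, HBasis W (X i) (ι i)} {lam : ∀ i, ι i → W.K} {e D : ℕ} {N : Filtration W}

section

variable [hp : Fact p.Prime] [∀ i, Finite (ι i)] (hN : IsCon N)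
  (hB : ∀ i, IsEig Φ (B i) (lam i)) (he : ∀ i, Φ.e (X i) = e) (he0 : 0 < e) (hD : 0 < D)
  (hW : IsWeilFamily p e D (lm lam) (dg B)) (hne : Nonempty (Emb W.K p)) {m : ℕ}
  (hG : ∀ (i : I) (Lst : List I), (i :: Lst).length ≤ m → GTCi Φ N (prodOf X i Lst))

include hN hB he hD hne hG in
/-- Short words. -/
lemma con_small {b : Multiset (Σ i, ι i)} (hb : b.card ≤ m) {c : ℤ}
    (hc : ∀ s, D * c ≤ vs (PP he0 hW s) b) : Con N B b c := by
  induction b using Quotient.inductionOn with
  | h b =>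
    match b with
    | [] =>
      refine Con.of_nonpos hN ?_ _
      obtain ⟨ψ⟩ := hne
      have h1 : (D : ℤ) * c ≤ 0 := hc (ψ, true)
      by_contra h2
      have h3 : (0 : ℤ) < D * c := mul_pos (by exact_mod_cast hD) (not_le.1 h2)
      omega
    | l :: Lst =>
      refine Con.small hN (isCan_prod hB Lst l) fun C hC => ?_
      refine word_mem hN hB he he0 hD hW (hG _ _ ?_) ?_
      · rw [List.length_cons, List.length_map]
        exact hb
      · rw [hC]
        exact hc

include hN hB he hD hne hG in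
/-- Division by short balanced words. -/
lemma con_cancel {b : Multiset (Σ i, ι i)} (hb : b.card ≤ m) {J : ℤ}
    (hJ : ∀ s, vs (PP he0 hW s) b = D * J) {M' : Multiset (Σ i, ι i)} {c : ℤ}
    (h : Con N B (M' + b) (c + J)) : Con N B M' c := by
  induction b using Quotient.inductionOn with
  | h b =>
    match b with
    | [] =>
      obtain ⟨ψ⟩ := hne
      have h1 : (0 : ℤ) = D * J := hJ (ψ, true)
      have h2 : J = 0 := by
        rcases mul_eq_zero.1 h1.symm with h3 | h3
        · exact absurd h3 (by exact_mod_cast hD.ne')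
        · exact h3
      have h3 : Con N B (M' + 0) (c + J) := h
      rwa [h2, add_zero, add_zero] at h3
    | l :: Lst =>
      refine Con.cancel hN (isCan_prod hB Lst l) (J := J) (fun C hC h0 => ?_) h
      obtain ⟨κ, hκ, bs, F, Nw, hbs⟩ := hasWords_prod B (fun i => inferInstance)
        (Lst.map Sigma.fst) l.1
      obtain ⟨a, ha⟩ := exists_dualv bs h0
      have ha' : W.tr _ (bs a * lwf B C) ≠ 0 :=
        tr_comm_ne (lwf_gr _) (by rw [(hbs a).1]; exact lwf_gr _) ha
      refine ⟨bs a, ?_, ha'⟩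
      rw [(hbs a).1] at ha' ⊢
      refine word_mem hN hB he he0 hD hW (hG _ _ ?_) fun s => ?_
      · rw [List.length_cons, List.length_map]
        exact hb
      · have h1 := dual_vs hB he he0 hD hW ha' s
        rw [hC] at h1
        have h2 : vs (PP he0 hW s) (↑(l :: Lst) : Multiset (Σ i, ι i)) = D * J := hJ s
        rw [mul_sub]
        linarith

include hB he hD in
lemma exists_dual_letter (l : Σ i, ι i) : ∃ l' : Σ i, ι i, l'.1 = l.1 ∧
    ∀ s, PP he0 hW s l' + PP he0 hW s l = D * (X l.1).dim := by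
  obtain ⟨m, hm, _, _⟩ := exists_dual (hB l.1) l.2
  refine ⟨⟨l.1, m⟩, rfl, fun s => ?_⟩
  have h1 := dual_vs hB he he0 hD hW (C := [⟨⟨l.1, m⟩, 𝟙 _⟩]) (C' := [⟨l, 𝟙 _⟩]) (by
    rw [lwf_cons, lwf_nil, mul_one, lwf_cons, lwf_nil, mul_one]
    have h2 := W.map_id (X l.1) ((B l.1).b m)
    have h3 := W.map_id (X l.1) ((B l.1).b l.2)
    rw [h2, h3]
    exact hm) s
  have h4 : ∀ x : Σ i, ι i, vs (PP he0 hW s) (↑[x] : Multiset (Σ i, ι i)) = PP he0 hW s x := by
    intro x
    have h5 : (↑[x] : Multiset (Σ i, ι i)) = x ::ₘ 0 := rfl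
    rw [h5, vs_cons, vs_zero, add_zero]
  have h5 : vs (PP he0 hW s) (↑[(⟨l.1, m⟩ : Σ i, ι i)] : Multiset (Σ i, ι i)) +
      vs (PP he0 hW s) (↑[l] : Multiset (Σ i, ι i)) = D * (X l.1).dim := h1
  rwa [h4, h4] at h5

include hB he hD in
lemma pp_le (s : Emb W.K p × Bool) (l : Σ i, ι i) : PP he0 hW s l ≤ D * (X l.1).dim := by
  obtain ⟨l', _, h⟩ := exists_dual_letter hB he he0 hD hW l
  have h1 := h s
  have h2 := pp_nonneg he0 hW s l'
  linarith

lemma rwi_vlz (l : Σ i, ι i) (ψ : Emb W.K p) :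
    rwi he0 hW l ψ = 2 * vlz he0 hW ψ l - D * dg B l := by
  have h1 := rwi_eq he0 hW l ψ
  have h2 := vlz_eq he0 hW ψ l
  have h3 : (rwi he0 hW l ψ : ℝ) = ((2 * vlz he0 hW ψ l - D * dg B l : ℤ) : ℝ) := by
    rw [h1, rho]
    push_cast
    rw [h2]
    ring
  exact_mod_cast h3

/-- The letters can be exchanged. -/
def Eqv (l l' : Σ i, ι i) : Prop :=
  rwi he0 hW l = rwi he0 hW l' ∧ dg B l % 2 = dg B l' % 2

/-- Half of the difference of the degrees. -/
def dl (B : ∀ i, HBasis W (X i) (ι i)) (l l' : Σ i, ι i) : ℤ := ((dg B l : ℤ) - dg B l') / 2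

lemma shift_eq {l l' : Σ i, ι i} (h : Eqv he0 hW l l') (s : Emb W.K p × Bool) :
    PP he0 hW s l - PP he0 hW s l' = D * dl B l l' := by
  obtain ⟨h1, h2⟩ := h
  have h3 : (dg B l : ℤ) - dg B l' = 2 * dl B l l' := by
    rw [dl]
    omega
  rcases s with ⟨ψ, b⟩
  have h4 := congrFun h1 ψ
  rw [rwi_vlz, rwi_vlz] at h4
  have h5 : vlz he0 hW ψ l - vlz he0 hW ψ l' = D * dl B l l' := by
    have h6 : 2 * (vlz he0 hW ψ l - vlz he0 hW ψ l') = 2 * (D * dl B l l') := by
      have h7 : (D : ℤ) * ((dg B l : ℤ) - dg B l') = D * (2 * dl B l l') := by rw [h3]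
      linarith
    linarith
  rcases b with _ | _
  · rw [PP, PP, if_neg (by simp), if_neg (by simp)]
    have h7 : (D : ℤ) * ((dg B l : ℤ) - dg B l') = D * (2 * dl B l l') := by rw [h3]
    linarith
  · rw [PP, PP, if_pos rfl, if_pos rfl]
    exact h5

include hN hB he hD hne hG in
/-- Equivalent letters can be exchanged. -/
lemma con_swap (hm : 2 ≤ m) {l l' : Σ i, ι i} (hl : Eqv he0 hW l l')
    {M' : Multiset (Σ i, ι i)} {c : ℤ} (h : Con N B (l' ::ₘ M') (c - dl B l l')) :
    Con N B (l ::ₘ M') c := by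
  obtain ⟨r, hr1, hr2⟩ := exists_dual_letter hB he he0 hD hW l'
  have hb : ∀ x y : Σ i, ι i, ({x, y} : Multiset (Σ i, ι i)).card ≤ m := fun x y => by
    rw [Multiset.insert_eq_cons, Multiset.card_cons, Multiset.card_singleton]
    exact hm
  have hvs : ∀ (s) (x y : Σ i, ι i), vs (PP he0 hW s) ({x, y} : Multiset (Σ i, ι i)) =
      PP he0 hW s x + PP he0 hW s y := by
    intro s x y
    rw [Multiset.insert_eq_cons, vs_cons, ← Multiset.cons_zero, vs_cons, vs_zero, add_zero]
  refine con_cancel hN hB he he0 hD hW hne hG (hb r l') (J := (X l'.1).dim) (fun s => ?_) ?_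
  · rw [hvs]
    exact hr2 s
  have h1 : l ::ₘ M' + ({r, l'} : Multiset (Σ i, ι i)) =
      (l' ::ₘ M') + ({r, l} : Multiset (Σ i, ι i)) := by
    rw [Multiset.insert_eq_cons, Multiset.insert_eq_cons, Multiset.cons_add, Multiset.cons_add,
      Multiset.add_cons, Multiset.add_cons, Multiset.add_comm M' {l'}, Multiset.add_comm M' {l},
      Multiset.singleton_add, Multiset.singleton_add, Multiset.cons_swap r l' M',
      Multiset.cons_swap l l', Multiset.cons_swap l r M']
  rw [h1]
  have h2 := con_small hN hB he he0 hD hW hne hG (hb r l)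
    (c := (X l'.1).dim + dl B l l') (fun s => by
      rw [hvs, mul_add]
      have h3 := shift_eq he0 hW hl s
      have h4 := hr2 s
      linarith)
  have h3 := h.add hN h2
  refine h3.anti hN (le_of_eq ?_)
  ring

include hN hB he hD hne hG in
/-- Replacement of the letters by representatives. -/
lemma con_rep (hm : 2 ≤ m) {rep : (Σ i, ι i) → (Σ i, ι i)}
    (hrep : ∀ l, Eqv he0 hW l (rep l)) : ∀ (M' M₁ : Multiset (Σ i, ι i)) (c : ℤ),
      Con N B (M'.map rep + M₁) (c - vs (fun l => dl B l (rep l)) M') →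
      Con N B (M' + M₁) c := by
  intro M'
  induction M' using Multiset.induction_on with
  | empty =>
    intro M₁ c h
    rw [Multiset.map_zero, vs_zero, sub_zero] at h
    exact h
  | cons a M' ih =>
    intro M₁ c h
    rw [Multiset.cons_add]
    refine con_swap hN hB he he0 hD hW hne hG hm (hrep a) ?_
    rw [← Multiset.add_cons]
    refine ih _ _ ?_
    rw [Multiset.map_cons, Multiset.cons_add, ← Multiset.add_cons, vs_cons] at h
    refine h.anti hN (le_of_eq ?_)
    ring

lemma vs_rep {rep : (Σ i, ι i) → (Σ i, ι i)} (hrep : ∀ l, Eqv he0 hW l (rep l))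
    (s : Emb W.K p × Bool) (M' : Multiset (Σ i, ι i)) : vs (PP he0 hW s) (M'.map rep) =
      vs (PP he0 hW s) M' - D * vs (fun l => dl B l (rep l)) M' := by
  induction M' using Multiset.induction_on with
  | empty => rw [Multiset.map_zero, vs_zero, vs_zero, mul_zero, sub_zero]
  | cons a M' ih =>
    rw [Multiset.map_cons, vs_cons, ih, vs_cons, vs_cons, mul_add]
    have h1 := shift_eq he0 hW (hrep a) s
    linarith

include hN hB he hD hne hG in
/-- Words in few letters. -/
lemma con_cone {d t : ℕ} (hd : ∀ i, (X i).dim ≤ d) (hm : coneBound (t + 1) (D * (d + 1)) ≤ m)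
    {G : Finset (Σ i, ι i)} (hGt : G.card ≤ t) : ∀ (n : ℕ) (M' : Multiset (Σ i, ι i)) (c : ℕ),
      M'.card + c = n → (∀ l ∈ M', l ∈ G) → (∀ s, (D * c : ℤ) ≤ vs (PP he0 hW s) M') →
      Con N B M' c := by
  classical
  intro n
  induction n using Nat.strong_induction_on with
  | _ n ih =>
  intro M' c hn hM hc
  by_cases hle : n ≤ coneBound (t + 1) (D * (d + 1))
  · exact con_small hN hB he he0 hD hW hne hG (by omega) hc
  let a : (Emb W.K p × Bool) → Option (Σ i, ι i) → ℤ := fun s o =>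
    match o with
    | some l => PP he0 hW s l
    | none => -(D : ℤ)
  have hDz : (0 : ℤ) < D := by exact_mod_cast hD
  have hbd : ∀ s o, |a s o| ≤ ((D * (d + 1) : ℕ) : ℤ) := by
    rintro s (_ | l)
    · show |(-(D : ℤ))| ≤ _
      rw [abs_neg, abs_of_pos hDz]
      push_cast
      nlinarith [Int.natCast_nonneg d]
    · show |PP he0 hW s l| ≤ _
      have h1 := pp_nonneg he0 hW s l
      have h2 := pp_le hB he he0 hD hW s l
      rw [abs_of_nonneg h1]
      refine h2.trans ?_
      push_cast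
      have h3 : ((X l.1).dim : ℤ) ≤ d := by exact_mod_cast hd l.1
      nlinarith
  let G' : Finset (Option (Σ i, ι i)) := insert none (G.image some)
  have hG'c : G'.card ≤ t + 1 :=
    (Finset.card_insert_le _ _).trans (Nat.add_le_add_right (Finset.card_image_le.trans hGt) 1)
  have hG'm : ∀ o ∈ M'.map some + Multiset.replicate c none, o ∈ G' := by
    intro o ho
    rcases Multiset.mem_add.1 ho with ho | ho
    · obtain ⟨l, hl, rfl⟩ := Multiset.mem_map.1 ho
      exact Finset.mem_insert_of_mem (Finset.mem_image_of_mem _ (hM l hl))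
    · rw [Multiset.eq_of_mem_replicate ho]
      exact Finset.mem_insert_self _ _
  have hvs : ∀ s (M' : Multiset (Σ i, ι i)) (c : ℕ),
      vs (a s) (M'.map some + Multiset.replicate c none) = vs (PP he0 hW s) M' - D * c := by
    intro s M' c
    rw [vs_option]
    show vs (PP he0 hW s) M' + c * (-(D : ℤ)) = _
    ring
  have hcard : ∀ (M' : Multiset (Σ i, ι i)) (c : ℕ),
      (M'.map some + Multiset.replicate c (none : Option (Σ i, ι i))).card = M'.card + c := by
    intro M' c
    rw [Multiset.card_add, Multiset.card_map, Multiset.card_replicate]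
  obtain ⟨M1, M2, h1, h2, h3, h4⟩ := exists_sub_cone (a := a) hbd hG'c hG'm (fun s => by
    rw [hvs]
    have := hc s
    omega) (by rw [hcard, hn]; exact not_le.1 hle)
  obtain ⟨M1, c1, rfl⟩ := option_split M1
  obtain ⟨M2, c2, rfl⟩ := option_split M2
  rw [hcard, hcard] at h2 h3
  have h5 : M'.map some + Multiset.replicate c (none : Option (Σ i, ι i)) =
      (M1 + M2).map some + Multiset.replicate (c1 + c2) none := by
    rw [h1, Multiset.map_add, Multiset.replicate_add]
    abel
  obtain ⟨rfl, rfl⟩ := option_inj h5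
  have h6 : ∀ s, (D * c1 : ℤ) ≤ vs (PP he0 hW s) M1 := fun s => by
    have := (h4 s).1
    rw [hvs] at this
    omega
  have h7 : ∀ s, (D * c2 : ℤ) ≤ vs (PP he0 hW s) M2 := fun s => by
    have := (h4 s).2
    rw [hvs] at this
    omega
  have h8 := (ih _ (hn ▸ h2) M1 c1 rfl (fun l hl => hM l (Multiset.mem_add.2 (Or.inl hl))) h6).add
    hN (ih _ (hn ▸ h3) M2 c2 rfl (fun l hl => hM l (Multiset.mem_add.2 (Or.inr hl))) h7)
  refine h8.anti hN (le_of_eq ?_)
  push_cast
  ring

include hN hB he hD hne hG in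
/-- **All words.** -/
theorem con_all {R d : ℕ}
    (hR : ∀ s : Fin (R + 1) → (Σ i, ι i), ∃ a : Fin (R + 1) → ℤ, a ≠ 0 ∧
      ∑ i, a i • rwi he0 hW (s i) = 0) (hd : ∀ i, (X i).dim ≤ d)
    (hm : coneBound (2 * (2 * (D * d) + 1) ^ R + 1) (D * (d + 1)) ≤ m)
    {M' : Multiset (Σ i, ι i)} {c : ℤ} (hc : ∀ s, D * c ≤ vs (PP he0 hW s) M') :
    Con N B M' c := by
  classical
  have hm2 : 2 ≤ m := by
    refine le_trans ?_ hm
    rw [coneBound]
    have h1 : 1 ≤ (2 * (D * d) + 1) ^ R := Nat.one_le_pow _ _ (by omega)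
    set x := 2 * (2 * (D * d) + 1) ^ R + 1 with hx
    have h3 : 2 ≤ x + (2 * (D * (d + 1)) + 1) ^ x := by omega
    exact le_trans h3 (Nat.le_mul_of_pos_right _ (Nat.pow_pos (by omega)))
  -- the rows of the letters of the word
  let Λ := {l // l ∈ M'.toFinset}
  have hrow : ∀ (ψ : Emb W.K p) (l : Σ i, ι i), |rwi he0 hW l ψ| ≤ ((D * d : ℕ) : ℤ) := by
    intro ψ l
    have h1 := pp_nonneg he0 hW (ψ, true) l
    have h2 := pp_nonneg he0 hW (ψ, false) l
    have h3 := pp_le hB he he0 hD hW (ψ, true) l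
    have h4 := pp_le hB he he0 hD hW (ψ, false) l
    have h5 : rwi he0 hW l ψ = PP he0 hW (ψ, true) l - PP he0 hW (ψ, false) l := by
      rw [rwi_vlz, PP, PP, if_pos rfl, if_neg (by simp)]
      ring
    have h6 : (D : ℤ) * (X l.1).dim ≤ ((D * d : ℕ) : ℤ) := by
      push_cast
      exact mul_le_mul_of_nonneg_left (by exact_mod_cast hd l.1) (Int.natCast_nonneg D)
    rw [h5, abs_le]
    constructor <;> linarith
  let S₀ : Set (Λ → ℤ) := Set.range fun (ψ : Emb W.K p) (l : Λ) => rwi he0 hW l.1 ψ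
  have hS₀ : S₀.Finite := by
    refine Set.Finite.subset (Set.Finite.pi' (t := fun _ : Λ =>
      Set.Icc (-((D * d : ℕ) : ℤ)) ((D * d : ℕ) : ℤ)) fun _ => Set.finite_Icc _ _) ?_
    rintro _ ⟨ψ, rfl⟩ l
    exact Set.mem_Icc.2 (abs_le.1 (hrow ψ l.1))
  have : Finite S₀ := hS₀
  let w : Λ → S₀ → ℤ := fun l s => s.1 l
  have hw : ∀ l l' : Λ, w l = w l' → rwi he0 hW l.1 = rwi he0 hW l'.1 := by
    intro l l' h
    funext ψ
    exact congrFun h ⟨_, ψ, rfl⟩
  obtain ⟨hfin, hcard⟩ := range_le (w := w) (R := R) (B := D * d) (by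
    rintro l ⟨_, ψ, rfl⟩
    exact hrow ψ l.1) (by
    intro s
    obtain ⟨a, ha, h⟩ := hR fun i => (s i).1
    refine ⟨a, ha, ?_⟩
    funext ⟨_, ψ, rfl⟩
    have h1 := congrFun h ψ
    rw [Finset.sum_apply, Pi.zero_apply] at h1 ⊢
    exact h1)
  have : Fintype (Set.range w) := hfin.fintype
  let φ : Λ → Set.range w × Bool := fun l => (⟨w l, l, rfl⟩, decide (dg B l.1 % 2 = 0))
  let g : Set.range φ → Λ := fun x => x.2.choose
  have hg : ∀ x, φ (g x) = x := fun x => x.2.choose_spec
  let rep : (Σ i, ι i) → (Σ i, ι i) := fun l =>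
    if h : l ∈ M'.toFinset then (g ⟨φ ⟨l, h⟩, ⟨l, h⟩, rfl⟩).1 else l
  have hrep : ∀ l, Eqv he0 hW l (rep l) := by
    intro l
    by_cases h : l ∈ M'.toFinset
    · have h1 : rep l = (g ⟨φ ⟨l, h⟩, ⟨l, h⟩, rfl⟩).1 := dif_pos h
      have h2 := hg ⟨φ ⟨l, h⟩, ⟨l, h⟩, rfl⟩
      have h3 : w (g ⟨φ ⟨l, h⟩, ⟨l, h⟩, rfl⟩) = w ⟨l, h⟩ :=
        congrArg (fun x : Set.range w × Bool => x.1.1) h2
      have h4 : decide (dg B (g ⟨φ ⟨l, h⟩, ⟨l, h⟩, rfl⟩).1 % 2 = 0) = decide (dg B l % 2 = 0) :=
        congrArg (fun x : Set.range w × Bool => x.2) h2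
      rw [decide_eq_decide] at h4
      rw [h1]
      exact ⟨(hw _ _ h3).symm, by omega⟩
    · have h1 : rep l = l := dif_neg h
      rw [h1]
      exact ⟨rfl, rfl⟩
  let G : Finset (Σ i, ι i) := (Finset.univ : Finset (Set.range φ)).image fun x => (g x).1
  have hGc : G.card ≤ 2 * (2 * (D * d) + 1) ^ R := by
    refine Finset.card_image_le.trans ?_
    have h1 : Fintype.card (Set.range φ) ≤ Fintype.card (Set.range w × Bool) :=
      Fintype.card_le_of_injective Subtype.val Subtype.val_injective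
    rw [Finset.card_univ]
    refine h1.trans ?_
    rw [Fintype.card_prod, Fintype.card_bool, mul_comm, ← Nat.card_eq_fintype_card,
      Nat.card_coe_set_eq]
    exact Nat.mul_le_mul_left _ hcard
  have hGm : ∀ l ∈ M'.map rep, l ∈ G := by
    intro l hl
    obtain ⟨a, ha, rfl⟩ := Multiset.mem_map.1 hl
    have h : a ∈ M'.toFinset := Multiset.mem_toFinset.2 ha
    have h1 : rep a = (g ⟨φ ⟨a, h⟩, ⟨a, h⟩, rfl⟩).1 := dif_pos h
    rw [h1]
    exact Finset.mem_image_of_mem (fun x => (g x).1) (Finset.mem_univ _)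
  have key : Con N B (M'.map rep) (c - vs (fun l => dl B l (rep l)) M') := by
    rcases le_or_gt (c - vs (fun l => dl B l (rep l)) M') 0 with h0 | h0
    · exact Con.of_nonpos hN h0 _
    · obtain ⟨n, hn⟩ := Int.eq_ofNat_of_zero_le h0.le
      rw [hn]
      refine con_cone hN hB he he0 hD hW hne hG hd hm hGc _ _ n rfl hGm fun s => ?_
      rw [vs_rep he0 hW hrep, ← hn, mul_sub]
      have := hc s
      linarith
  have h2 := con_rep hN hB he he0 hD hW hne hG hm2 hrep M' 0 c (by rwa [add_zero])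
  rwa [add_zero] at h2

end

end Pool.Agent.R936.GTF
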