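import Pool.Agent.R936.Hel.Defs

/-!
# The generalised Tate conjecture over finite fields: definitions
-/

open CategoryTheory AlgebraicGeometry

universe u v w

namespace Pool.Agent.R936.GTF

open Pool.Agent.H914 Pool.Agent.W534 VarClass Obj WeilCohomology

variable {k : Type u} [Field k] {𝒱 : VarClass k} {ops : CycleOps 𝒱}

/-- The subspaces of the cohomology of `Y`. -/
abbrev CohSub (W : WeilCohomology.{u, v} ops) (Y : 𝒱.Obj) := Submodule W.K (W.H Y)

/-- Subspaces `N Y c` of the cohomology of all varieties `Y`, for all natural numbers `c`. -/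
abbrev Filtration (W : WeilCohomology.{u, v} ops) := ∀ Y : 𝒱.Obj, ℕ → CohSub W Y

variable {W : WeilCohomology.{u, v} ops}

/-- The class `x` belongs to the subspace with the number `c`. -/
def InF (N : Filtration W) {Y : 𝒱.Obj} (c : ℕ) (x : W.H Y) : Prop := x ∈ N Y c

/-- The cup product. -/
def cup {Y : 𝒱.Obj} (x y : W.H Y) : W.H Y := x * y

/-- The pull-back. -/
def pullB {Y Z : 𝒱.Obj} (f : Y ⟶ Z) (x : W.H Z) : W.H Y := W.map f x

/-- The push-forward. -/
def pushF {Y Z : 𝒱.Obj} (f : Y ⟶ Z) (x : W.H Y) : W.H Z := W.push f x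

/-- The filtration is compatible with cup products. -/
def RespCup (N : Filtration W) : Prop :=
  ∀ (Y : 𝒱.Obj) (a b : ℕ) (x y : W.H Y), InF N a x → InF N b y → InF N (a + b) (cup x y)

/-- The filtration is compatible with pull-backs. -/
def RespPull (N : Filtration W) : Prop :=
  ∀ (Y Z : 𝒱.Obj) (f : Y ⟶ Z) (a : ℕ) (x : W.H Z), InF N a x → InF N a (pullB f x)

/-- Push-forwards shift the filtration by the difference of the dimensions. -/
def RespPushF (N : Filtration W) : Prop :=
  ∀ (Y Z : 𝒱.Obj) (f : Y ⟶ Z) (a b : ℕ) (x : W.H Y), b + Y.dim ≤ a + Z.dim → InF N a x →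
    InF N b (pushF f x)

/-- The formal properties of the coniveau filtration: `N Y 0` is everything, the filtration is
decreasing and compatible with cup products, pull-backs and push-forwards. -/
structure IsConiveau (N : Filtration W) : Prop where
  zero : ∀ (Y : 𝒱.Obj) (x : W.H Y), InF N 0 x
  anti : ∀ (Y : 𝒱.Obj) (a b : ℕ) (x : W.H Y), a ≤ b → InF N b x → InF N a x
  mul : RespCup N
  map : RespPull N
  push : RespPushF N

variable {p : ℕ}

/-- The number `a` divides `b` in the ring of the algebraic integers. -/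
def IntDvd {K : Type v} [Field K] (a b : K) : Prop := ∃ β : K, IsIntegral ℤ β ∧ b = a * β

/-- The number `q = p ^ (Φ.e Y)` of elements of the finite field of definition of `Y`. -/
noncomputable def qn (Φ : FrobSystem W p) (Y : 𝒱.Obj) : W.K := (p : W.K) ^ Φ.e Y

/-- Let `q = p ^ (Φ.e Y)`. The number `α` is divisible by `q ^ c`, and `q ^ i` is divisible by
`α * q ^ c`, in the ring of the algebraic integers. -/
def DivBounds (Φ : FrobSystem W p) (Y : 𝒱.Obj) (i c : ℕ) (α : W.K) : Prop :=
  IntDvd (qn Φ Y ^ c) α ∧ IntDvd (α * qn Φ Y ^ c) (qn Φ Y ^ i)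

/-- The Frobenius endomorphism of the cohomology. -/
def frE (Φ : FrobSystem W p) {Y : 𝒱.Obj} (x : W.H Y) : W.H Y := pullB (Φ.Fr Y) x

/-- The subspace `V` of `H^i(Y)` is stable under the Frobenius endomorphism. -/
def IsFrobSub (Φ : FrobSystem W p) {Y : 𝒱.Obj} (i : ℕ) (V : CohSub W Y) : Prop :=
  V ≤ W.gr Y i ∧ ∀ x : W.H Y, x ∈ V → frE Φ x ∈ V

/-- All eigenvalues `α` of the Frobenius endomorphism on `V` are divisible by `q ^ c`, and
`q ^ (i - c) / α` is integral: the twist `V(c)` is effective of weight `i - 2 c`. -/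
def EigDiv (Φ : FrobSystem W p) {Y : 𝒱.Obj} (i c : ℕ) (V : CohSub W Y) : Prop :=
  ∀ (α : W.K) (x : W.H Y), x ∈ V → x ≠ 0 → frE Φ x = α • x → DivBounds Φ Y i c α

/-- The generalised Tate conjecture for `Y`, a variety over the field with `q = p ^ (Φ.e Y)` elements,
and the filtration `N` (in the intended use the coniveau filtration): let `V` be a subspace of `H^i(Y)`
which is stable under the Frobenius endomorphism and such that `V(c)` is effective of weight `i - 2 c`,
that is, all eigenvalues `α` on `V` are divisible by `q ^ c`, and `q ^ (i - c) / α` is integral. Then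
`V` is contained in `N Y c`. -/
def GTC (Φ : FrobSystem W p) (N : Filtration W) (Y : 𝒱.Obj) : Prop :=
  ∀ (i c : ℕ) (V : CohSub W Y), IsFrobSub Φ i V → EigDiv Φ i c V → ∀ x : W.H Y, x ∈ V → InF N c x

/-- The number `b (2 b (B + 1) + 1) ^ b` with `b = t + (2 B + 1) ^ t`, `B = D (d + 1)` and
`t = 2 (2 D d + 1) ^ R + 1`. -/
def gtcBound (R d D : ℕ) : ℕ :=
  let t := 2 * (2 * (D * d) + 1) ^ R + 1
  let B := D * (d + 1)
  let b := t + (2 * B + 1) ^ t
  b * (2 * (b * (B + 1)) + 1) ^ b

end Pool.Agent.R936.GTF
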