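import Pool.Agent.R936.GTF.Cone

/-!
# The generalised Tate conjecture for products of members of a family
-/

set_option linter.unusedVariables false
set_option linter.unusedSectionVars false

open CategoryTheory AlgebraicGeometry

universe u v w

namespace Pool.Agent.R936.GTF

open Pool.Agent.H914 Pool.Agent.W534 VarClass Obj WeilCohomology
open Pool.Agent.Y163 (HBasis)
open Pool.Agent.R940 (IsEig repr_zero IsWeilFamily root_charpoly exists_ebasis HasIntegralPolys
  IsSlopeDenominator)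
open Pool.Agent.R936.Hel Pool.Agent.R936.ArbF
open Pool.Agent.R936.GHC (vs vs_cons vs_add vs_zero vs_sub coneBound)

variable {k : Type u} [Field k] {𝒱 : VarClass k} {ops : CycleOps 𝒱}
  {W : WeilCohomology.{u, v} ops} {Y Z Z' : 𝒱.Obj} {p : ℕ} {Φ : FrobSystem W p}
  {I : Type w} {X : I → 𝒱.Obj} {N : Filtration W}

/-- There is an embedding of the algebraic numbers. -/
lemma nonempty_emb (K : Type*) [Field K] [CharZero K] (p : ℕ) [Fact p.Prime] :
    Nonempty (Emb K p) := by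
  have : Algebra.IsAlgebraic ℚ (Om K) := algebraicClosure.isAlgebraic ℚ K
  exact ⟨IsAlgClosed.lift⟩

/-- The relations between the rows. -/
lemma rank_rows [hp : Fact p.Prime] {σ : W.K →+* ℂ} {ι : I → Type v}
    {B : ∀ i, HBasis W (X i) (ι i)} {lam : ∀ i, ι i → W.K} {e D : ℕ}
    (hB : ∀ i, IsEig Φ (B i) (lam i)) (hRH : ∀ i, RiemannHyp Φ σ (X i)) (he0 : 0 < e)
    (he : ∀ i, Φ.e (X i) = e) (hW : IsWeilFamily p e D (lm lam) (dg B)) {R : ℕ}
    (hR : RankLe {z | ∃ i, z ∈ eigenvalues Φ σ (X i)} R) (s : Fin (R + 1) → (Σ i, ι i)) :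
    ∃ a : Fin (R + 1) → ℤ, a ≠ 0 ∧ ∑ i, a i • rwi he0 hW (s i) = 0 := by
  classical
  have hq1 : 1 < p ^ e := Nat.one_lt_pow he0.ne' hp.out.one_lt
  have hroot : ∀ l : Σ i, ι i, (frobPoly Φ σ (X l.1) 1 (dg B l)).IsRoot (σ (lm lam l)) := by
    intro l
    rw [frobPoly_eq]
    exact (root_charpoly (hB l.1) l.2).map
  have hnorm : ∀ l : Σ i, ι i, ‖σ (lm lam l)‖ ^ 2 = ((p ^ e : ℕ) : ℝ) ^ dg B l := by
    intro l
    have h1 := hRH l.1 1 one_pos _ _ (hroot l)
    rw [h1, Pool.Agent.W534.card, mul_one, he]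
  obtain ⟨a, ha, h0⟩ := hR (fun i => σ (lm lam (s i))) fun i => ⟨(s i).1, _, hroot (s i)⟩
  have h1 : ∏ i, (lm lam (s i)) ^ a i = 1 := by
    apply σ.injective
    rw [map_one, ← h0, map_prod]
    exact Finset.prod_congr rfl fun i _ => by rw [map_zpow₀]
  refine ⟨a, ha, rows_dep he0 hW s h1 ?_⟩
  have h2 := congrArg (fun x => ‖σ x‖ ^ 2) h1
  have hqpos : (0 : ℝ) < ((p ^ e : ℕ) : ℝ) := by exact_mod_cast (zero_lt_one.trans hq1)
  have h3 : ‖σ (∏ i, (lm lam (s i)) ^ a i)‖ ^ 2 =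
      (((p ^ e : ℕ) : ℝ)) ^ (∑ i, a i * (dg B (s i) : ℤ)) := by
    rw [map_prod, norm_prod, ← Finset.prod_pow]
    have h4 : ∀ i, ‖σ ((lm lam (s i)) ^ a i)‖ ^ 2 =
        (((p ^ e : ℕ) : ℝ)) ^ (a i * (dg B (s i) : ℤ)) := by
      intro i
      rw [map_zpow₀, norm_zpow, ← zpow_natCast, ← zpow_mul, mul_comm (a i) ((2 : ℕ) : ℤ),
        zpow_mul, zpow_natCast, hnorm, ← zpow_natCast, ← zpow_mul, mul_comm (a i)]
    rw [Finset.prod_congr rfl fun i _ => h4 i]
    have h5 : ∀ t : Finset (Fin (R + 1)), ∏ i ∈ t, (((p ^ e : ℕ) : ℝ)) ^ (a i * (dg B (s i) : ℤ)) =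
        (((p ^ e : ℕ) : ℝ)) ^ (∑ i ∈ t, a i * (dg B (s i) : ℤ)) := by
      intro t
      induction t using Finset.induction_on with
      | empty => simp
      | insert b t hb ih =>
        rw [Finset.prod_insert hb, Finset.sum_insert hb, ih, zpow_add₀ hqpos.ne']
    exact h5 _
  rw [h3, map_one, norm_one, one_pow, ← zpow_zero (((p ^ e : ℕ) : ℝ))] at h2
  exact zpow_right_injective₀ hqpos (by exact_mod_cast hq1.ne') h2

/-- A nonzero generalised eigenvector gives an eigenvector. -/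
lemma exists_eig {f : Module.End W.K (W.H Y)} {V : Submodule W.K (W.H Y)}
    (hf : ∀ x ∈ V, f x ∈ V) {α : W.K} {x : W.H Y} (hx : x ∈ V)
    (hx' : x ∈ f.maxGenEigenspace α) (h0 : x ≠ 0) : ∃ y ∈ V, y ≠ 0 ∧ f y = α • y := by
  obtain ⟨n, hn⟩ := (Module.End.mem_maxGenEigenspace _ _ _).1 hx'
  induction n with
  | zero => exact absurd hn (by rw [pow_zero]; exact h0)
  | succ n ih =>
    by_cases h1 : ((f - α • (1 : Module.End W.K (W.H Y))) ^ n) x = 0
    · exact ih h1
    · refine ⟨_, ?_, h1, ?_⟩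
      · have key : ∀ (n : ℕ) (y : W.H Y), y ∈ V →
            ((f - α • (1 : Module.End W.K (W.H Y))) ^ n) y ∈ V := by
          intro n
          induction n with
          | zero => intro y hy; rwa [pow_zero]
          | succ n ih =>
            intro y hy
            rw [pow_succ, Module.End.mul_apply]
            refine ih _ ?_
            rw [LinearMap.sub_apply, LinearMap.smul_apply, Module.End.one_apply]
            exact Submodule.sub_mem _ (hf y hy) (Submodule.smul_mem _ _ hy)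
        exact key n x hx
      · rw [pow_succ', Module.End.mul_apply, LinearMap.sub_apply, LinearMap.smul_apply,
          Module.End.one_apply, sub_eq_zero] at hn
        exact hn

/-- The generalised Tate conjecture follows from the one for words. -/
lemma gtc_of_words [IsAlgClosed W.K] (h : ∀ (i c : ℕ) (α : W.K) (x : W.H Y), x ∈ W.gr Y i →
    x ∈ (frob Φ Y 1).maxGenEigenspace α → Dvb Φ Y i c α → x ∈ N Y c) : GTCi Φ N Y := by
  intro i c V hV hst hα
  have hst' : ∀ x ∈ V, frob Φ Y 1 x ∈ V := fun x hx => by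
    rw [frob_one_apply]
    exact hst x hx
  have h1 := Submodule.eq_iSup_inf_genEigenspace (p := V) (f := frob Φ Y 1) ⊤ hst'
    (Module.End.iSup_maxGenEigenspace_eq_top (frob Φ Y 1))
  rw [h1]
  refine iSup_le fun α => ?_
  rintro x ⟨hx, hx'⟩
  by_cases h0 : x = 0
  · rw [h0]
    exact Submodule.zero_mem _
  obtain ⟨y, hy, hy0, hy'⟩ := exists_eig hst' hx hx' h0
  rw [frob_one_apply] at hy'
  exact h i c α x (hV hx) hx' (hα α y hy hy0 hy')

/-- The reduction. -/
theorem gtci_red [hp : Fact p.Prime] [IsAlgClosed W.K] {σ : W.K →+* ℂ}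
    (hRH : ∀ i, RiemannHyp Φ σ (X i)) (hN : IsCon N) {e : ℕ} (he : ∀ i, Φ.e (X i) = e)
    (hint : ∀ i, HasIntegralPolys Φ σ (X i)) {D : ℕ} (hD : ∀ i, IsSlopeDenominator Φ σ (X i) D)
    {R : ℕ} (hR : RankLe {z | ∃ i, z ∈ eigenvalues Φ σ (X i)} R) {d : ℕ}
    (hd : ∀ i, (X i).dim ≤ d)
    (h : ∀ i L, (i :: L).length ≤ gtcBound R d D → GTCi Φ N (prodOf X i L)) (i : I) (L : List I) :
    GTCi Φ N (prodOf X i L) := by
  classical
  choose ι hfin B lam hB using fun i => exists_ebasis Φ (X i)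
  have he0 : 0 < e := he i ▸ Φ.e_pos _
  have hD0 : 0 < D := (hD i).1
  have hW : IsWeilFamily p e D (lm lam) (dg B) := isWeilFamily hB hRH hint hD he
  have hne := nonempty_emb W.K p
  refine gtc_of_words fun n c α x hx hx' hα => ?_
  obtain ⟨κ, hκ, b, F, Nw, hb⟩ := hasWords_prod B hfin L i
  cases nonempty_fintype κ
  rw [← b.sum_repr x]
  refine Submodule.sum_mem _ fun a _ => ?_
  by_cases h0 : b.repr x a = 0
  · rw [h0, zero_smul]
    exact Submodule.zero_mem _
  · refine Submodule.smul_mem _ _ ?_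
    rw [(hb a).1]
    have h1 := vals_of_repr hB he0 hD0 hW (fun a => (hb a).1) (by
      obtain ⟨S, S', hS, hS', hSS, h1⟩ := frob_lt Φ he he0 F
      exact ⟨S, S', hS, hS', hSS, fun a y hy t x => h1 _ ((hb a).2 y hy) t x⟩) hx hx' hα h0
    have h2 := con_all hN hB he he0 hD0 hW hne h (rank_rows hB hRH he0 he hW hR) hd (le_of_eq rfl)
      (c := (c : ℤ)) h1
    have h3 := h2 _ (Nw a) rfl
    rwa [Int.toNat_natCast] at h3

/-- **The reduction.** -/
theorem gtc_red [hp : Fact p.Prime] [IsAlgClosed W.K] {σ : W.K →+* ℂ}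
    (hRH : ∀ i, RiemannHyp Φ σ (X i)) (hN : IsConiveau N) {e : ℕ} (he : ∀ i, Φ.e (X i) = e)
    (hint : ∀ i, HasIntegralPolys Φ σ (X i)) {D : ℕ} (hD : ∀ i, IsSlopeDenominator Φ σ (X i) D)
    {R : ℕ} (hR : RankLe {z | ∃ i, z ∈ eigenvalues Φ σ (X i)} R) {d : ℕ}
    (hd : ∀ i, (X i).dim ≤ d)
    (h : ∀ i L, (i :: L).length ≤ gtcBound R d D → GTC Φ N (prodOf X i L)) (i : I) (L : List I) :
    GTC Φ N (prodOf X i L) :=
  gtci_iff.1 (gtci_red hRH hN.toCon he hint hD hR hd (fun i L hL => gtci_iff.2 (h i L hL)) i L)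

end Pool.Agent.R936.GTF
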