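import Pool.Agent.R936.ArbF.Fin
import Pool.Agent.R936.GHC.Cone
import Pool.Agent.R936.GHC.Cnt

/-!
# Valuations and divisibility of Weil numbers
-/

set_option linter.unusedVariables false
set_option linter.unusedSectionVars false

namespace Pool.Agent.R936.GTF

open Polynomial Finset IntermediateField
open Pool.Agent.R940 Pool.Agent.R936.ArbF
open Pool.Agent.R936.GHC (vs vs_cons vs_add vs_zero)

variable {K ι : Type*} [Field K] [CharZero K] {p : ℕ} [hp : Fact p.Prime] {e D : ℕ}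
  {lam : ι → K} {deg : ι → ℕ}

lemma p_ne : (p : Om K) ≠ 0 := Nat.cast_ne_zero.2 hp.out.ne_zero

lemma vl_p (he : 0 < e) (ψ : Emb K p) : (e : ℝ) * vl e ψ (p : Om K) = 1 := by
  rw [← vl_pow, vl_q he]

/-- Roots of minimal polynomials are images under embeddings. -/
lemma exists_hom {A : Type*} [Field A] [Algebra ℚ A] [IsAlgClosed A] (x : Om K) {y : A}
    (hy : aeval y (minpoly ℚ x) = 0) : ∃ ψ : Om K →ₐ[ℚ] A, ψ x = y := by
  have : Algebra.IsAlgebraic ℚ (Om K) := algebraicClosure.isAlgebraic ℚ K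
  have h1 := Algebra.IsAlgebraic.range_eval_eq_rootSet_minpoly A x (F := ℚ)
  have h2 : y ∈ (minpoly ℚ x).rootSet A := by
    rw [mem_rootSet]
    exact ⟨minpoly.ne_zero (Algebra.IsAlgebraic.isAlgebraic x).isIntegral, hy⟩
  rw [← h1] at h2
  exact h2

/-- Numbers with nonnegative valuations are integral. -/
lemma int_of_vals (he : 0 < e) {x : Om K} (h0 : x ≠ 0) {n : ℕ}
    (hx : IsIntegral ℤ (x * ((p : Om K) ^ e) ^ n)) (hv : ∀ ψ : Emb K p, 0 ≤ vl e ψ x) :
    IsIntegral ℤ x := by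
  have halg : Algebra.IsAlgebraic ℚ (Om K) := algebraicClosure.isAlgebraic ℚ K
  refine isIntegral_of_padic (Algebra.IsAlgebraic.isAlgebraic x) ?_
  intro l' hl' y hy
  obtain ⟨ψ, rfl⟩ := exists_hom x hy
  by_cases hlp : l' = p
  · subst hlp
    have h1 := hv ψ
    rw [vl, neg_nonneg, div_nonpos_iff] at h1
    have h2 := logq_pos (p := l') he
    rcases h1 with h1 | h1
    · exact absurd h1.2 (not_le.2 h2)
    · exact (Real.log_nonpos_iff (norm_nonneg _)).1 h1.1
  · have hpn : ‖(p : PadicAlgCl l')‖ = 1 := by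
      have h1 : ((p : ℚ_[l']) : PadicAlgCl l') = (p : PadicAlgCl l') :=
        map_natCast (algebraMap ℚ_[l'] (PadicAlgCl l')) p
      rw [← h1, PadicAlgCl.norm_extends]
      have h2 : ¬ ‖(p : ℚ_[l'])‖ < 1 := by
        have h3 := (Padic.norm_intCast_lt_one_iff (p := l') (k := (p : ℤ)))
        rw [Int.cast_natCast] at h3
        rw [h3]
        intro h4
        exact hlp ((Nat.prime_dvd_prime_iff_eq hl'.out hp.out).1 (by exact_mod_cast h4))
      have h5 := Padic.norm_int_le_one (p := l') (p : ℤ)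
      rw [Int.cast_natCast] at h5
      exact le_antisymm h5 (not_lt.1 h2)
    have h1 : ‖ψ (x * ((p : Om K) ^ e) ^ n)‖ ≤ 1 :=
      padic_integral (hx.map (ψ.restrictScalars ℤ))
    rwa [map_mul, map_pow, map_pow, map_natCast, norm_mul, norm_pow, norm_pow, hpn, one_pow,
      one_pow, mul_one] at h1

lemma exists_vlz (he : 0 < e) (h : IsWeilFamily p e D lam deg) (ψ : Emb K p) (l : ι) :
    ∃ m : ℤ, (m : ℝ) = D * vl e ψ (om h l) := by
  have h1 : aeval (ψ (om h l)) (minpoly ℚ (lam l)) = 0 := by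
    have h2 : minpoly ℚ (lam l) = minpoly ℚ (om h l) :=
      minpoly.algebraMap_eq (algebraMap (Om K) K).injective (om h l)
    rw [h2, aeval_algHom_apply, minpoly.aeval, map_zero]
  obtain ⟨m, hm⟩ := h.slope l _ h1
  refine ⟨m, ?_⟩
  have h2 := congrArg Real.log hm
  rw [Real.log_pow, Real.log_zpow] at h2
  rw [vl, mul_neg, mul_div_assoc', h2, Int.cast_neg, neg_mul, neg_div, neg_neg,
    mul_div_cancel_right₀ _ (logq_pos he).ne']

/-- The integral valuation. -/
noncomputable def vlz (he : 0 < e) (h : IsWeilFamily p e D lam deg) (ψ : Emb K p) (l : ι) : ℤ :=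
  (exists_vlz he h ψ l).choose

lemma vlz_eq (he : 0 < e) (h : IsWeilFamily p e D lam deg) (ψ : Emb K p) (l : ι) :
    (vlz he h ψ l : ℝ) = D * vl e ψ (om h l) := (exists_vlz he h ψ l).choose_spec

/-- The two valuations of a letter. -/
noncomputable def PP (he : 0 < e) (h : IsWeilFamily p e D lam deg) (s : Emb K p × Bool) (l : ι) :
    ℤ := if s.2 then vlz he h s.1 l else D * deg l - vlz he h s.1 l

lemma pp_nonneg (he : 0 < e) (h : IsWeilFamily p e D lam deg) (s : Emb K p × Bool) (l : ι) :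
    0 ≤ PP he h s l := by
  have h1 := vl_nonneg he s.1 (om_int h l)
  have h2 := vl_le he h s.1 l
  have hD : (0 : ℝ) ≤ D := Nat.cast_nonneg D
  rw [PP]
  split_ifs
  · have h3 : (0 : ℝ) ≤ (vlz he h s.1 l : ℝ) := by
      rw [vlz_eq]
      positivity
    exact_mod_cast h3
  · have h3 : (0 : ℝ) ≤ ((D * deg l - vlz he h s.1 l : ℤ) : ℝ) := by
      push_cast
      rw [vlz_eq, ← mul_sub]
      exact mul_nonneg hD (sub_nonneg.2 h2)
    exact_mod_cast h3

/-- The sum of the valuations. -/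
noncomputable def sv (e : ℕ) (h : IsWeilFamily p e D lam deg) (ψ : Emb K p) (M : Multiset ι) : ℝ :=
  (M.map fun l => vl e ψ (om h l)).sum

lemma vs_true (he : 0 < e) (h : IsWeilFamily p e D lam deg) (ψ : Emb K p) (M : Multiset ι) :
    ((vs (PP he h (ψ, true)) M : ℤ) : ℝ) = D * sv e h ψ M := by
  induction M using Multiset.induction_on with
  | empty => simp [sv]
  | cons a M ih =>
    rw [vs_cons, sv, Multiset.map_cons, Multiset.sum_cons, mul_add, Int.cast_add, ih]
    congr 1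
    rw [PP, if_pos rfl, vlz_eq]

lemma vs_false (he : 0 < e) (h : IsWeilFamily p e D lam deg) (ψ : Emb K p) (M : Multiset ι) :
    ((vs (PP he h (ψ, false)) M : ℤ) : ℝ) = D * (((M.map deg).sum : ℕ) - sv e h ψ M) := by
  induction M using Multiset.induction_on with
  | empty => simp [sv]
  | cons a M ih =>
    rw [vs_cons, sv, Multiset.map_cons, Multiset.sum_cons, Int.cast_add, ih, PP, if_neg (by simp)]
    push_cast
    rw [vlz_eq, Multiset.map_cons, Multiset.sum_cons, sv]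
    push_cast
    ring

/-- The word is divisible by `q ^ c` and divides `q ^ (i - c)`. -/
lemma le_vs_iff (he : 0 < e) (hD : 0 < D) (h : IsWeilFamily p e D lam deg) (M : Multiset ι)
    (c : ℤ) : (∀ s, D * c ≤ vs (PP he h s) M) ↔
      ∀ ψ : Emb K p, (c : ℝ) ≤ sv e h ψ M ∧ (c : ℝ) ≤ ((M.map deg).sum : ℕ) - sv e h ψ M := by
  have hD' : (0 : ℝ) < D := by exact_mod_cast hD
  constructor
  · intro h1 ψ
    have h2 := h1 (ψ, true)
    have h3 := h1 (ψ, false)
    have h4 : ((D * c : ℤ) : ℝ) ≤ ((vs (PP he h (ψ, true)) M : ℤ) : ℝ) := by exact_mod_cast h2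
    have h5 : ((D * c : ℤ) : ℝ) ≤ ((vs (PP he h (ψ, false)) M : ℤ) : ℝ) := by exact_mod_cast h3
    rw [vs_true, Int.cast_mul, Int.cast_natCast] at h4
    rw [vs_false, Int.cast_mul, Int.cast_natCast] at h5
    exact ⟨le_of_mul_le_mul_left h4 hD', le_of_mul_le_mul_left h5 hD'⟩
  · rintro h1 ⟨ψ, _ | _⟩
    · have h4 : ((D * c : ℤ) : ℝ) ≤ ((vs (PP he h (ψ, false)) M : ℤ) : ℝ) := by
        rw [vs_false, Int.cast_mul, Int.cast_natCast]
        exact mul_le_mul_of_nonneg_left (h1 ψ).2 hD'.le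
      exact_mod_cast h4
    · have h4 : ((D * c : ℤ) : ℝ) ≤ ((vs (PP he h (ψ, true)) M : ℤ) : ℝ) := by
        rw [vs_true, Int.cast_mul, Int.cast_natCast]
        exact mul_le_mul_of_nonneg_left (h1 ψ).1 hD'.le
      exact_mod_cast h4

lemma vl_om_prod (he : 0 < e) (h : IsWeilFamily p e D lam deg) (ψ : Emb K p) (M : Multiset ι) :
    vl e ψ (M.map (om h)).prod = sv e h ψ M := vl_mprod ψ M (om_ne_zero he h)

lemma om_prod_ne (he : 0 < e) (h : IsWeilFamily p e D lam deg) (M : Multiset ι) :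
    (M.map (om h)).prod ≠ 0 := by
  refine Multiset.prod_ne_zero fun h0 => ?_
  obtain ⟨b, _, hb⟩ := Multiset.mem_map.1 h0
  exact om_ne_zero he h b hb

lemma om_prod_int (h : IsWeilFamily p e D lam deg) (M : Multiset ι) :
    IsIntegral ℤ (M.map (om h)).prod := by
  induction M using Multiset.induction_on with
  | empty => rw [Multiset.map_zero, Multiset.prod_zero]; exact isIntegral_one
  | cons a M ih =>
    rw [Multiset.map_cons, Multiset.prod_cons]
    exact (om_int h a).mul ih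

lemma om_co_prod_int (he : 0 < e) (h : IsWeilFamily p e D lam deg) (M : Multiset ι) :
    IsIntegral ℤ (((p : Om K) ^ e) ^ (M.map deg).sum / (M.map (om h)).prod) := by
  induction M using Multiset.induction_on with
  | empty => simpa using isIntegral_one
  | cons a M ih =>
    rw [Multiset.map_cons, Multiset.sum_cons, Multiset.map_cons, Multiset.prod_cons, pow_add,
      mul_div_mul_comm]
    exact (om_co_int he h a).mul ih

/-- Divisibility implies inequalities for the valuations. -/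
lemma vals_of_eff (he : 0 < e) (h : IsWeilFamily p e D lam deg) {M : Multiset ι} {α β γ : K}
    {S S' e' i c : ℕ} (hS : 0 < S) (hS' : 0 < S') (hSS : S * e' = S' * e)
    (hα : α ^ S = (M.map lam).prod ^ S') (hβ : IsIntegral ℤ β) (hγ : IsIntegral ℤ γ)
    (h1 : α = ((p : K) ^ e') ^ c * β) (h2 : α * γ * ((p : K) ^ e') ^ c = ((p : K) ^ e') ^ i)
    (ψ : Emb K p) : (c : ℝ) ≤ sv e h ψ M ∧ (c : ℝ) ≤ (i : ℝ) - sv e h ψ M := by
  have heR : (0 : ℝ) < e := by exact_mod_cast he
  have hSR : (0 : ℝ) < S := by exact_mod_cast hS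
  have hSR' : (0 : ℝ) < S' := by exact_mod_cast hS'
  have hp0 : (p : Om K) ≠ 0 := p_ne
  have hpe : ∀ n : ℕ, vl e ψ (((p : Om K) ^ e') ^ n) = n * (e' / e) := by
    intro n
    have h3 := vl_p (K := K) he ψ
    rw [vl_pow, vl_pow]
    have h4 : vl e ψ (p : Om K) = 1 / e := by field_simp; linarith
    rw [h4]
    ring
  let β' : Om K := ⟨β, (mem_algebraicClosure_iff).2 (hβ.tower_top (A := ℚ)).isAlgebraic⟩
  let γ' : Om K := ⟨γ, (mem_algebraicClosure_iff).2 (hγ.tower_top (A := ℚ)).isAlgebraic⟩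
  have hβ' : IsIntegral ℤ β' := by
    have : IsIntegral ℤ ((algebraMap (Om K) K) β') := hβ
    exact (isIntegral_algebraMap_iff (algebraMap (Om K) K).injective).1 this
  have hγ' : IsIntegral ℤ γ' := by
    have : IsIntegral ℤ ((algebraMap (Om K) K) γ') := hγ
    exact (isIntegral_algebraMap_iff (algebraMap (Om K) K).injective).1 this
  set α' : Om K := ((p : Om K) ^ e') ^ c * β' with hα'
  have hcoe : (α' : K) = α := by
    rw [h1]
    push_cast
    rfl
  have h3 : α' ^ S = (M.map (om h)).prod ^ S' := by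
    apply Subtype.ext
    rw [SubmonoidClass.coe_pow, SubmonoidClass.coe_pow, hcoe, coe_mprod, hα]
  have h4 : α' * γ' * ((p : Om K) ^ e') ^ c = ((p : Om K) ^ e') ^ i := by
    apply Subtype.ext
    push_cast
    rw [hcoe]
    exact h2
  have hα0 : α' ≠ 0 := by
    intro h0
    rw [h0, zero_mul, zero_mul] at h4
    exact pow_ne_zero _ (pow_ne_zero _ hp0) h4.symm
  have hβ0 : β' ≠ 0 := by
    intro h0
    rw [hα', h0, mul_zero] at hα0
    exact hα0 rfl
  have hγ0 : γ' ≠ 0 := by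
    intro h0
    rw [h0, mul_zero, zero_mul] at h4
    exact pow_ne_zero _ (pow_ne_zero _ hp0) h4.symm
  have e1 := congrArg (vl e ψ) h3
  rw [vl_pow, vl_pow, vl_om_prod he] at e1
  have e2 : vl e ψ α' = c * (e' / e) + vl e ψ β' := by
    rw [hα', vl_mul ψ (pow_ne_zero _ (pow_ne_zero _ hp0)) hβ0, hpe]
  have e3 := congrArg (vl e ψ) h4
  rw [vl_mul ψ (mul_ne_zero hα0 hγ0) (pow_ne_zero _ (pow_ne_zero _ hp0)), vl_mul ψ hα0 hγ0, hpe,
    hpe] at e3
  have b1 := vl_nonneg he ψ hβ'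
  have b2 := vl_nonneg he ψ hγ'
  have hSS' : (S : ℝ) * e' = S' * e := by exact_mod_cast hSS
  have hr : (S : ℝ) * (e' / e) = S' := by field_simp; linarith
  constructor
  · refine le_of_mul_le_mul_left ?_ hSR'
    rw [← e1, e2, ← hr]
    have : 0 ≤ (S : ℝ) * vl e ψ β' := mul_nonneg hSR.le b1
    nlinarith
  · refine le_of_mul_le_mul_left ?_ hSR'
    have e4 : (S : ℝ) * vl e ψ α' = S' * i - S' * c - S * vl e ψ γ' := by
      rw [← hr]
      linear_combination (S : ℝ) * e3
    have : 0 ≤ (S : ℝ) * vl e ψ γ' := mul_nonneg hSR.le b2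
    rw [mul_sub, ← e1, e4]
    linarith

/-- Inequalities for the valuations imply divisibility. -/
lemma eff_of_vals (he : 0 < e) (h : IsWeilFamily p e D lam deg) {M : Multiset ι} {α : K}
    {S S' e' i c : ℕ} (hS : 0 < S) (hS' : 0 < S') (hSS : S * e' = S' * e)
    (hα : α ^ S = (M.map lam).prod ^ S') (hi : (M.map deg).sum = i)
    (hc : ∀ ψ : Emb K p, (c : ℝ) ≤ sv e h ψ M ∧ (c : ℝ) ≤ (i : ℝ) - sv e h ψ M) :
    ∃ β γ : K, IsIntegral ℤ β ∧ IsIntegral ℤ γ ∧ α = ((p : K) ^ e') ^ c * β ∧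
      α * γ * ((p : K) ^ e') ^ c = ((p : K) ^ e') ^ i := by
  have hp0 : (p : Om K) ≠ 0 := p_ne
  have hpK : (p : K) ≠ 0 := Nat.cast_ne_zero.2 hp.out.ne_zero
  set x : Om K := (M.map (om h)).prod with hx
  have hx0 : x ≠ 0 := om_prod_ne he h M
  have hcoe : (x : K) = (M.map lam).prod := coe_mprod h M
  have hα0 : α ≠ 0 := by
    rintro rfl
    rw [zero_pow hS.ne'] at hα
    have h1 : (M.map lam).prod = 0 := eq_zero_of_pow_eq_zero hα.symm
    rw [← hcoe] at h1
    exact hx0 (Subtype.ext h1)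
  have h1 : IsIntegral ℤ (x / ((p : Om K) ^ e) ^ c) := by
    refine int_of_vals (p := p) he (div_ne_zero hx0 (pow_ne_zero _ (pow_ne_zero _ hp0))) (n := c) ?_
      fun ψ => ?_
    · rw [div_mul_cancel₀ _ (pow_ne_zero _ (pow_ne_zero _ hp0))]
      exact om_prod_int h M
    · have e1 : vl e ψ x = vl e ψ (x / ((p : Om K) ^ e) ^ c) + vl e ψ (((p : Om K) ^ e) ^ c) := by
        rw [← vl_mul ψ (div_ne_zero hx0 (pow_ne_zero _ (pow_ne_zero _ hp0)))
          (pow_ne_zero _ (pow_ne_zero _ hp0)), div_mul_cancel₀ _ (pow_ne_zero _ (pow_ne_zero _ hp0))]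
      rw [vl_pow, vl_q he, hx, vl_om_prod he, ← hx] at e1
      have := (hc ψ).1
      linarith
  have h2 : IsIntegral ℤ (((p : Om K) ^ e) ^ i / (x * ((p : Om K) ^ e) ^ c)) := by
    have hne : ((p : Om K) ^ e) ^ i / (x * ((p : Om K) ^ e) ^ c) ≠ 0 :=
      div_ne_zero (pow_ne_zero _ (pow_ne_zero _ hp0))
        (mul_ne_zero hx0 (pow_ne_zero _ (pow_ne_zero _ hp0)))
    refine int_of_vals (p := p) he hne (n := c) ?_ fun ψ => ?_
    · have e1 : ((p : Om K) ^ e) ^ i / (x * ((p : Om K) ^ e) ^ c) * ((p : Om K) ^ e) ^ c =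
          ((p : Om K) ^ e) ^ i / x := by
        have := pow_ne_zero c (pow_ne_zero e hp0)
        field_simp
      rw [e1, ← hi]
      exact om_co_prod_int he h M
    · have e1 : vl e ψ (((p : Om K) ^ e) ^ i) =
          vl e ψ (((p : Om K) ^ e) ^ i / (x * ((p : Om K) ^ e) ^ c)) +
            (vl e ψ x + vl e ψ (((p : Om K) ^ e) ^ c)) := by
        rw [← vl_mul ψ hx0 (pow_ne_zero _ (pow_ne_zero _ hp0)), ← vl_mul ψ hne
          (mul_ne_zero hx0 (pow_ne_zero _ (pow_ne_zero _ hp0))),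
          div_mul_cancel₀ _ (mul_ne_zero hx0 (pow_ne_zero _ (pow_ne_zero _ hp0)))]
      rw [vl_pow, vl_q he, vl_pow, vl_q he, hx, vl_om_prod he, ← hx] at e1
      have := (hc ψ).2
      linarith
  have hpp : ∀ n : ℕ, (((p : K) ^ e') ^ n) ^ S = (((p : K) ^ e) ^ n) ^ S' := by
    intro n
    rw [← pow_mul, ← pow_mul, ← pow_mul, ← pow_mul]
    congr 1
    calc e' * (n * S) = (S * e') * n := by ring
      _ = e * (n * S') := by rw [hSS]; ring
  refine ⟨α / ((p : K) ^ e') ^ c, ((p : K) ^ e') ^ i / (α * ((p : K) ^ e') ^ c), ?_, ?_, ?_, ?_⟩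
  · refine IsIntegral.of_pow hS ?_
    have e1 : (α / ((p : K) ^ e') ^ c) ^ S =
        (algebraMap (Om K) K (x / ((p : Om K) ^ e) ^ c)) ^ S' := by
      rw [div_pow, hα, hpp, map_div₀, map_pow, map_pow, map_natCast, div_pow, ← hcoe]
      rfl
    rw [e1]
    exact (h1.map ((algebraMap (Om K) K).toIntAlgHom)).pow _
  · refine IsIntegral.of_pow hS ?_
    have e1 : (((p : K) ^ e') ^ i / (α * ((p : K) ^ e') ^ c)) ^ S =
        (algebraMap (Om K) K (((p : Om K) ^ e) ^ i / (x * ((p : Om K) ^ e) ^ c))) ^ S' := by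
      rw [div_pow, mul_pow, hα, hpp, hpp, map_div₀, map_mul, map_pow, map_pow, map_pow,
        map_natCast, div_pow, mul_pow, ← hcoe]
      rfl
    rw [e1]
    exact (h2.map ((algebraMap (Om K) K).toIntAlgHom)).pow _
  · rw [mul_div_cancel₀ _ (pow_ne_zero _ (pow_ne_zero _ hpK))]
  · have := pow_ne_zero c (pow_ne_zero e' hpK)
    field_simp

end Pool.Agent.R936.GTF
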