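import Pool.Agent.R936.Hel.Main
import Pool.Agent.R936.Hel2.Abs
import Pool.Agent.R936.ArbF.Ext
import Pool.Agent.R936.GTF.Vals
import Pool.Agent.R936.GTF.Defs

/-!
# The coniveau of words
-/

set_option linter.unusedVariables false
set_option linter.unusedSectionVars false

open CategoryTheory AlgebraicGeometry

universe u v w

namespace Pool.Agent.R936.GTF

open Pool.Agent.H914 Pool.Agent.W534 VarClass Obj WeilCohomology
open Pool.Agent.Y163 (HBasis)
open Pool.Agent.R940 (IsEig repr_zero IsWeilFamily)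
open Pool.Agent.R936.Hel Pool.Agent.R936.ArbF
open Pool.Agent.R936.Hel (exists_dualv tr_comm_ne)
open Pool.Agent.R936.GHC (vs vs_cons vs_add vs_zero)

variable {k : Type u} [Field k] {𝒱 : VarClass k} {ops : CycleOps 𝒱}
  {W : WeilCohomology.{u, v} ops} {Y Z Z' : 𝒱.Obj} {p : ℕ} {Φ : FrobSystem W p}
  {I : Type w} {X : I → 𝒱.Obj} {ι : I → Type v}
  {B : ∀ i, HBasis W (X i) (ι i)} {lam : ∀ i, ι i → W.K} {e D : ℕ} {N : Filtration W}

/-- Internal form of `IsConiveau`. -/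
structure IsCon (N : Filtration W) : Prop where
  zero : ∀ Y, N Y 0 = ⊤
  anti : ∀ Y a b, a ≤ b → N Y b ≤ N Y a
  mul : ∀ Y a b (x y : W.H Y), x ∈ N Y a → y ∈ N Y b → x * y ∈ N Y (a + b)
  map : ∀ Y Z (f : Y ⟶ Z) a (x : W.H Z), x ∈ N Z a → W.map f x ∈ N Y a
  push : ∀ Y Z (f : Y ⟶ Z) a b (x : W.H Y), b + Y.dim ≤ a + Z.dim → x ∈ N Y a →
    W.push f x ∈ N Z b

/-- Internal form of `DivBounds`. -/
def Dvb (Φ : FrobSystem W p) (Y : 𝒱.Obj) (i c : ℕ) (α : W.K) : Prop :=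
  ∃ β γ : W.K, IsIntegral ℤ β ∧ IsIntegral ℤ γ ∧ α = ((p : W.K) ^ Φ.e Y) ^ c * β ∧
    α * γ * ((p : W.K) ^ Φ.e Y) ^ c = ((p : W.K) ^ Φ.e Y) ^ i

/-- Internal form of `GTC`. -/
def GTCi (Φ : FrobSystem W p) (N : Filtration W) (Y : 𝒱.Obj) : Prop :=
  ∀ (i c : ℕ) (V : Submodule W.K (W.H Y)), V ≤ W.gr Y i → (∀ x ∈ V, W.map (Φ.Fr Y) x ∈ V) →
    (∀ (α : W.K) (x : W.H Y), x ∈ V → x ≠ 0 → W.map (Φ.Fr Y) x = α • x → Dvb Φ Y i c α) →
      V ≤ N Y c

lemma IsConiveau.toCon (hN : IsConiveau N) : IsCon N :=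
  ⟨fun Y => Submodule.eq_top_iff'.2 (hN.zero Y), fun Y a b hab x hx => hN.anti Y a b x hab hx,
    fun Y a b x y hx hy => hN.mul Y a b x y hx hy, fun Y Z f a x hx => hN.map Y Z f a x hx,
    fun Y Z f a b x hab hx => hN.push Y Z f a b x hab hx⟩

lemma dvb_iff {i c : ℕ} {α : W.K} : Dvb Φ Y i c α ↔ DivBounds Φ Y i c α := by
  constructor
  · rintro ⟨β, γ, hβ, hγ, h1, h2⟩
    refine ⟨⟨β, hβ, h1⟩, γ, hγ, ?_⟩
    rw [qn, ← h2]
    ring
  · rintro ⟨⟨β, hβ, h1⟩, γ, hγ, h2⟩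
    refine ⟨β, γ, hβ, hγ, h1, ?_⟩
    rw [qn] at h2
    rw [h2]
    ring

lemma gtci_iff : GTCi Φ N Y ↔ GTC Φ N Y := by
  constructor
  · intro h i c V hV hα x hx
    exact h i c V hV.1 hV.2 (fun α x hx h0 hx' => dvb_iff.2 (hα α x hx h0 hx')) hx
  · intro h i c V hV hst hα x hx
    exact h i c V ⟨hV, hst⟩ (fun α x hx h0 hx' => dvb_iff.1 (hα α x hx h0 hx')) x hx

/-! ### The filtration with integral indices -/

lemma nz_anti (hN : IsCon N) {a b : ℤ} (hab : a ≤ b) {x : W.H Y} (hx : x ∈ N Y b.toNat) :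
    x ∈ N Y a.toNat := hN.anti _ _ _ (by omega) hx

lemma nz_top (hN : IsCon N) {c : ℤ} (hc : c ≤ 0) (x : W.H Y) : x ∈ N Y c.toNat := by
  rw [Int.toNat_of_nonpos hc, hN.zero]
  exact Submodule.mem_top

lemma nz_mul (hN : IsCon N) {a b : ℤ} {x y : W.H Y} (hx : x ∈ N Y a.toNat)
    (hy : y ∈ N Y b.toNat) : x * y ∈ N Y (a + b).toNat :=
  hN.anti _ _ _ (by omega) (hN.mul _ _ _ _ _ hx hy)

lemma nz_push (hN : IsCon N) (f : Y ⟶ Z) {a b : ℤ} (hab : b + Y.dim = a + Z.dim)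
    {x : W.H Y} (hx : x ∈ N Y a.toNat) : W.push f x ∈ N Z b.toNat := by
  rcases le_or_gt b 0 with hb | hb
  · exact nz_top hN hb _
  · exact hN.push _ _ f _ _ x (by omega) hx

variable (N) in
/-- All words with the given letters are of coniveau `c`. -/
def Con (B : ∀ i, HBasis W (X i) (ι i)) (M : Multiset (Σ i, ι i)) (c : ℤ) : Prop :=
  ∀ (Z : 𝒱.Obj) (C : List (Lt X ι Z)), (↑(C.map Sigma.fst) : Multiset (Σ i, ι i)) = M →
    lwf B C ∈ N Z c.toNat

lemma Con.of_nonpos (hN : IsCon N) {c : ℤ} (hc : c ≤ 0) (M : Multiset (Σ i, ι i)) :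
    Con N B M c := fun _ _ _ => nz_top hN hc _

lemma Con.anti (hN : IsCon N) {M : Multiset (Σ i, ι i)} {a b : ℤ} (hab : a ≤ b)
    (h : Con N B M b) : Con N B M a := fun Z C hC => nz_anti hN hab (h Z C hC)

lemma Con.add (hN : IsCon N) {M M' : Multiset (Σ i, ι i)} {a b : ℤ} (h : Con N B M a)
    (h' : Con N B M' b) : Con N B (M + M') (a + b) := by
  intro Z C hC
  obtain ⟨C1, C2, h1, h2, h3⟩ := split_add M M' C hC
  obtain ⟨ε, _, hε⟩ := lwf_perm (B := B) h1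
  rw [hε, lwf_append]
  exact Submodule.smul_mem _ _ (nz_mul hN (h Z C1 h2) (h' Z C2 h3))

lemma Con.small (hN : IsCon N) {T₀ : 𝒱.Obj} {b : List (Σ i, ι i)} (hcan : IsCan B T₀ b)
    {c : ℤ} (hT : ∀ C : List (Lt X ι T₀), C.map Sigma.fst = b → lwf B C ∈ N T₀ c.toNat) :
    Con N B ↑b c := by
  intro Z C' hC'
  obtain ⟨C'', h1, h2⟩ := reorder _ C' hC'
  obtain ⟨ε, _, hε⟩ := lwf_perm (B := B) h1
  obtain ⟨C, h3, _, h5⟩ := hcan
  obtain ⟨g, hg⟩ := h5 Z C'' h2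
  rw [hε, hg]
  exact Submodule.smul_mem _ _ (hN.map _ _ g _ _ (hT C h3))

lemma Con.cancel (hN : IsCon N) {T₀ : 𝒱.Obj} {b : List (Σ i, ι i)} (hcan : IsCan B T₀ b)
    {J : ℤ} (hT : ∀ C : List (Lt X ι T₀), C.map Sigma.fst = b → lwf B C ≠ 0 →
      ∃ y ∈ N T₀ ((T₀.dim : ℤ) - J).toNat, W.tr T₀ (y * lwf B C) ≠ 0)
    {M : Multiset (Σ i, ι i)} {c : ℤ} (h : Con N B (M + ↑b) (c + J)) : Con N B M c := by
  intro Z C' hC'
  obtain ⟨C, h3, h4, _⟩ := hcan
  obtain ⟨y, hyA, hy1⟩ := hT C h3 h4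
  have h6 := h (T₀.prod Z) (pull (fst T₀ Z) C ++ pull (snd T₀ Z) C') (by
    rw [List.map_append, pull_fst, pull_fst, ← Multiset.coe_add, h3, hC', add_comm])
  rw [lwf_append, ← map_lwf, ← map_lwf] at h6
  have h7 := nz_mul hN (hN.map _ _ (fst T₀ Z) _ _ hyA) h6
  rw [← mul_assoc, ← map_mul] at h7
  have h8 := nz_push hN (snd T₀ Z) (b := c) (by
    rw [dim_prod]
    push_cast
    ring) h7
  rw [push_snd] at h8
  have h9 := Submodule.smul_mem _ (W.tr T₀ (y * lwf B C))⁻¹ h8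
  rwa [smul_smul, inv_mul_cancel₀ hy1, one_smul] at h9

/-! ### Eigenvalues -/

lemma eig_eq {f : Module.End W.K (W.H Y)} {x : W.H Y} {a μ : W.K} (hx : f x = a • x)
    (hx' : x ∈ f.maxGenEigenspace μ) (h0 : x ≠ 0) : a = μ := by
  obtain ⟨n, hn⟩ := (Module.End.mem_maxGenEigenspace _ _ _).1 hx'
  have key : ∀ n : ℕ, ((f - μ • (1 : Module.End W.K (W.H Y))) ^ n) x = (a - μ) ^ n • x := by
    intro n
    induction n with
    | zero => rw [pow_zero, pow_zero, one_smul]; rfl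
    | succ n ih =>
      rw [pow_succ', Module.End.mul_apply, ih, map_smul, LinearMap.sub_apply,
        LinearMap.smul_apply, Module.End.one_apply, hx, ← sub_smul, smul_smul, pow_succ]
  rw [key] at hn
  rcases smul_eq_zero.1 hn with h | h
  · exact sub_eq_zero.1 (eq_zero_of_pow_eq_zero h)
  · exact absurd h h0

lemma frob_one_apply (x : W.H Y) : frob Φ Y 1 x = W.map (Φ.Fr Y) x := by
  rw [frob_apply, Pool.Agent.W534.map_iter, Function.iterate_one]

lemma frob_pow_eig {α : W.K} {x : W.H Y} (hx : W.map (Φ.Fr Y) x = α • x) (s : ℕ) :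
    frob Φ Y s x = α ^ s • x := by
  rw [frob_apply, Pool.Agent.W534.map_iter]
  induction s with
  | zero => rw [Function.iterate_zero, pow_zero, one_smul]; rfl
  | succ s ih => rw [Function.iterate_succ', Function.comp_apply, ih, map_smul, hx, smul_smul,
      pow_succ]

/-- Words on varieties for which the generalised Tate conjecture holds. -/
lemma word_mem [hp : Fact p.Prime] (hN : IsCon N) (hB : ∀ i, IsEig Φ (B i) (lam i))
    (he : ∀ i, Φ.e (X i) = e) (he0 : 0 < e) (hD : 0 < D)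
    (hW : IsWeilFamily p e D (lm lam) (dg B)) (hG : GTCi Φ N Z) {C : List (Lt X ι Z)} {c : ℤ}
    (hc : ∀ s, D * c ≤ vs (PP he0 hW s) (↑(C.map Sigma.fst) : Multiset (Σ i, ι i))) :
    lwf B C ∈ N Z c.toNat := by
  rcases le_or_gt c 0 with hc0 | hc0
  · exact nz_top hN hc0 _
  obtain ⟨n, rfl⟩ := Int.eq_ofNat_of_zero_le hc0.le
  rw [Int.toNat_natCast]
  obtain ⟨S, S', hS, hS', hSS, h1⟩ := frob_lt Φ he he0 (mor C)
  have h3 := lwf_gen hB C (fun y hy => h1 _ (List.mem_map.2 ⟨y, hy, rfl⟩)) 1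
  rw [mul_one, mul_one] at h3
  set i : ℕ := (C.map fun y => dg B y.1).sum with hi
  set μ : W.K := (C.map fun y => lm lam y.1).prod ^ S' with hμ
  have hvals := (le_vs_iff he0 hD hW _ _).1 hc
  have hmap1 : (C.map fun y => dg B y.1).sum =
      ((↑(C.map Sigma.fst) : Multiset (Σ i, ι i)).map (dg B)).sum := by
    rw [Multiset.map_coe, List.map_map, Multiset.sum_coe]
    rfl
  have hmap2 : (C.map fun y => lm lam y.1).prod =
      ((↑(C.map Sigma.fst) : Multiset (Σ i, ι i)).map (lm lam)).prod := by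
    rw [Multiset.map_coe, List.map_map, Multiset.prod_coe]
    rfl
  refine hG i n (W.gr Z i ⊓ (frob Φ Z S).maxGenEigenspace μ) inf_le_left ?_ ?_
    ⟨lwf_gr C, h3⟩
  · rintro x ⟨hx, hx'⟩
    refine ⟨W.map_mem _ hx, ?_⟩
    have hcomm : Commute (frob Φ Z S) (frob Φ Z 1) := by
      have h4 : frob Φ Z S = frob Φ Z 1 ^ S := by rw [← frob_mul_eq, one_mul]
      rw [h4]
      exact Commute.pow_left (Commute.refl _) _
    have h5 := Module.End.mapsTo_maxGenEigenspace_of_comm hcomm μ hx'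
    rw [← frob_one_apply]
    exact h5
  · rintro α x ⟨hx, hx'⟩ h0 hα
    have h4 := eig_eq (frob_pow_eig hα S) hx' h0
    exact eff_of_vals he0 hW (M := (↑(C.map Sigma.fst) : Multiset (Σ i, ι i))) hS hS' hSS
      (by rw [h4, hμ, hmap2]) hmap1.symm (fun ψ => by
        have h5 := hvals ψ
        rw [← hmap1, ← hi] at h5
        exact_mod_cast h5)

/-- The words which occur in divisible classes. -/
lemma vals_of_repr [hp : Fact p.Prime] (hB : ∀ i, IsEig Φ (B i) (lam i)) (he0 : 0 < e)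
    (hD : 0 < D) (hW : IsWeilFamily p e D (lm lam) (dg B)) {κ : Type v} [Finite κ]
    {b : Module.Basis κ W.K (W.H Z)} {Nw : κ → List (Lt X ι Z)} (hb : ∀ a, b a = lwf B (Nw a))
    (hcom : ∃ S S' : ℕ, 0 < S ∧ 0 < S' ∧ S * Φ.e Z = S' * e ∧
      ∀ a, ∀ y ∈ Nw a, ∀ (t : ℕ) (x : W.H (X y.1.1)),
        frob Φ Z (S * t) (W.map y.2 x) = W.map y.2 (frob Φ (X y.1.1) (S' * t) x))
    {i c : ℕ} {α : W.K} {x : W.H Z} (hx : x ∈ W.gr Z i)
    (hx' : x ∈ (frob Φ Z 1).maxGenEigenspace α) (hα : Dvb Φ Z i c α) {a : κ}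
    (ha : b.repr x a ≠ 0) (s : Emb W.K p × Bool) :
    (D * c : ℤ) ≤ vs (PP he0 hW s) (↑((Nw a).map Sigma.fst) : Multiset (Σ i, ι i)) := by
  obtain ⟨S, S', hS, hS', hSS, h⟩ := hcom
  obtain ⟨β, γ, hβ, hγ, h5, h6⟩ := hα
  have h2 : ((Nw a).map fun y => dg B y.1).sum = i := by
    by_contra hne
    apply ha
    refine repr_zero (W.isInternal Z).submodule_iSupIndep b
      (fun a => ((Nw a).map fun y => dg B y.1).sum) (fun a => ?_) hx hne
    rw [hb]
    exact lwf_gr _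
  have h1 : x ∈ (frob Φ Z S).maxGenEigenspace (α ^ S) := by
    have h4 := gen_mono (frob Φ Z 1) α S hx'
    rwa [← frob_mul_eq, one_mul] at h4
  have h3 : ((Nw a).map fun y => lm lam y.1).prod ^ S' = α ^ S := by
    by_contra hne
    apply ha
    refine repr_zero (Module.End.independent_maxGenEigenspace (frob Φ Z S)) b
      (fun a => ((Nw a).map fun y => lm lam y.1).prod ^ S') (fun a => ?_) h1 hne
    rw [hb]
    have h4 := lwf_gen hB (Nw a) (h a) 1
    rwa [mul_one, mul_one] at h4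
  have hmap1 : ((Nw a).map fun y => dg B y.1).sum =
      ((↑((Nw a).map Sigma.fst) : Multiset (Σ i, ι i)).map (dg B)).sum := by
    rw [Multiset.map_coe, List.map_map, Multiset.sum_coe]
    rfl
  have hmap2 : ((Nw a).map fun y => lm lam y.1).prod =
      ((↑((Nw a).map Sigma.fst) : Multiset (Σ i, ι i)).map (lm lam)).prod := by
    rw [Multiset.map_coe, List.map_map, Multiset.prod_coe]
    rfl
  refine (le_vs_iff he0 hD hW _ _).2 (fun ψ => ?_) s
  have h7 := vals_of_eff he0 hW (M := (↑((Nw a).map Sigma.fst) : Multiset (Σ i, ι i))) hS hS' hSS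
    (by rw [← hmap2, h3]) hβ hγ h5 h6 ψ
  rw [← hmap1, h2]
  exact_mod_cast h7

/-- The valuations of dual words. -/
lemma dual_vs [hp : Fact p.Prime] (hB : ∀ i, IsEig Φ (B i) (lam i)) (he : ∀ i, Φ.e (X i) = e)
    (he0 : 0 < e) (hD : 0 < D) (hW : IsWeilFamily p e D (lm lam) (dg B))
    {C C' : List (Lt X ι Y)} (h : W.tr Y (lwf B C * lwf B C') ≠ 0) (s : Emb W.K p × Bool) :
    vs (PP he0 hW s) (↑(C.map Sigma.fst) : Multiset (Σ i, ι i)) +
      vs (PP he0 hW s) (↑(C'.map Sigma.fst) : Multiset (Σ i, ι i)) = D * Y.dim := by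
  have h1 := tm_of_tr hB he he0 h
  rw [← vs_add]
  set M : Multiset (Σ i, ι i) := ↑(C.map Sigma.fst) + ↑(C'.map Sigma.fst) with hM
  have hdeg : (M.map (dg B)).sum = 2 * Y.dim := by
    have h2 : (C.map fun y => dg B y.1).sum + (C'.map fun y => dg B y.1).sum = 2 * Y.dim := by
      by_contra hne
      exact h (W.tr_eq_zero (W.mul_mem (lwf_gr C) (lwf_gr C')) hne)
    rw [← h2, hM, Multiset.map_add, Multiset.sum_add, Multiset.map_coe, List.map_map,
      Multiset.sum_coe, Multiset.map_coe, List.map_map, Multiset.sum_coe]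
    rfl
  have hsv : ∀ ψ, sv e hW ψ M = Y.dim := by
    intro ψ
    have h2 := rho_of_tm he0 hW (M := M) h1 ψ
    rw [sum_rho, hdeg] at h2
    have h3 : sv e hW ψ M = (M.map fun l => vl e ψ (om hW l)).sum := rfl
    rw [← h3] at h2
    push_cast at h2
    linarith
  rcases s with ⟨ψ, _ | _⟩
  · have h2 : ((vs (PP he0 hW (ψ, false)) M : ℤ) : ℝ) = ((D * Y.dim : ℤ) : ℝ) := by
      rw [vs_false, hsv, hdeg]
      push_cast
      ring
    exact_mod_cast h2
  · have h2 : ((vs (PP he0 hW (ψ, true)) M : ℤ) : ℝ) = ((D * Y.dim : ℤ) : ℝ) := by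
      rw [vs_true, hsv]
      push_cast
      ring
    exact_mod_cast h2

end Pool.Agent.R936.GTF
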